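import Pool.Agent.TH522.SE.Decay
import Pool.Agent.TH522.UG.Mixed

/-!
The mixed hierarchy for sets of a given size: covariances, energies, conditioning.
-/

set_option linter.unusedSectionVars false

namespace Pool.Agent.TH522.SE

open Finset Pool.Agent.H647R3.UG Pool.Agent.TH522.UG

section
variable {V : Type} [Fintype V] [DecidableEq V]

/-- level `k` of the mixed hierarchy for sets of size `m` -/
structure SM (k m : ℕ) (L : ((V → Bool) → ℝ) →ₗ[ℝ] ℝ) : Prop where
  mx : Mixed k L
  sz : ∀ S : Finset V, S.card ≤ k → ∀ g : (V → Bool) → ℝ, Dep S g →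
    L (fun x => g x * ∑ v, ind v true x) = m * L g

variable {k m : ℕ} {L : ((V → Bool) → ℝ) →ₗ[ℝ] ℝ}

/-- covariance -/
noncomputable def G (L : ((V → Bool) → ℝ) →ₗ[ℝ] ℝ) (u v : V) : ℝ :=
  pr2 L u v true true - pr L u true * pr L v true

/-- total variance -/
noncomputable def ww (L : ((V → Bool) → ℝ) →ₗ[ℝ] ℝ) : ℝ := ∑ v, G L v v

/-- expected boundary (ordered pairs) -/
noncomputable def err (K : V → V → ℝ) (L : ((V → Bool) → ℝ) →ₗ[ℝ] ℝ) : ℝ :=
  ∑ u, ∑ v, K u v * (1 - L (sat u v 1))

theorem pr_false (hL : Mixed k L) (v : V) : pr L v false = 1 - pr L v true := by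
  have := (Mx.law hL v v).one
  rw [Fintype.sum_bool] at this
  linarith

theorem pr_le (hL : Mixed k L) (v : V) : pr L v true ≤ 1 := by
  have h1 := pr_false hL v
  have h2 := Mx.pr_nonneg hL v false
  linarith

theorem pr2_tf (hL : Mixed k L) (u v : V) :
    pr2 L u v true false = pr L u true - pr2 L u v true true := by
  have := (Mx.law hL u v).left true
  rw [Fintype.sum_bool] at this
  linarith

theorem pr2_ft (hL : Mixed k L) (u v : V) :
    pr2 L u v false true = pr L v true - pr2 L u v true true := by
  have := (Mx.law hL u v).right true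
  rw [Fintype.sum_bool] at this
  linarith

theorem pr2_ff (hL : Mixed k L) (u v : V) :
    pr2 L u v false false = 1 - pr L u true - pr L v true + pr2 L u v true true := by
  have h1 := (Mx.law hL u v).left false
  rw [Fintype.sum_bool, pr_false hL, pr2_ft hL] at h1
  linarith

theorem G_self (hL : Mixed k L) (v : V) : G L v v = pr L v true - pr L v true ^ 2 := by
  unfold G
  rw [Mx.diag]
  unfold dg
  rw [if_pos rfl]
  ring

theorem G_self_nonneg (hL : Mixed k L) (v : V) : 0 ≤ G L v v := by
  rw [G_self hL]
  have h1 := Mx.pr_nonneg hL v true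
  have h2 := pr_le hL v
  nlinarith

theorem G_self_le (hL : Mixed k L) (v : V) : G L v v ≤ 1 / 4 := by
  rw [G_self hL]
  nlinarith [sq_nonneg (pr L v true - 1 / 2)]

theorem vr_eq (hL : Mixed k L) (v : V) : vr L v = 2 * G L v v := by
  rw [G_self hL]
  unfold vr
  rw [Fintype.sum_bool, pr_false hL]
  ring

theorem one_sub_sat (hL : Mixed k L) (u v : V) :
    1 - L (sat u v 1) = G L u u + G L v v - 2 * G L u v + (pr L u true - pr L v true) ^ 2 := by
  rw [Mx.sat_eq, G_self hL, G_self hL, Fintype.sum_bool]
  simp only [Equiv.Perm.coe_one, id_eq]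
  rw [pr2_ff hL]
  unfold G
  ring

theorem abs_le_sat (hL : Mixed k L) (u v : V) :
    |pr L u true - pr L v true| ≤ 1 - L (sat u v 1) := by
  have h1 := Mx.pr2_nonneg hL u v true false
  have h2 := Mx.pr2_nonneg hL u v false true
  rw [pr2_tf hL] at h1
  rw [pr2_ft hL] at h2
  have h3 : 1 - L (sat u v 1) = (pr L u true - pr2 L u v true true) +
      (pr L v true - pr2 L u v true true) := by
    rw [Mx.sat_eq, Fintype.sum_bool]
    simp only [Equiv.Perm.coe_one, id_eq]
    rw [pr2_ff hL]
    ring
  rw [h3, abs_le]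
  constructor <;> linarith

theorem sat_nn (hL : Mixed k L) (u v : V) : 0 ≤ 1 - L (sat u v 1) :=
  (abs_nonneg _).trans (abs_le_sat hL u v)

theorem gramG (hL : Mixed k L) :
    ∃ U : V → V → ℝ, ∀ u v, G L u v = ∑ j, U j u * U j v := by
  have key : ∀ u v : V, G L u v =
      L (fun x => (ind u true x - pr L u true) * (ind v true x - pr L v true)) := by
    intro u v
    have h1 : (fun x : V → Bool => (ind u true x - pr L u true) * (ind v true x - pr L v true)) =
        (fun x => ind u true x * ind v true x) - (pr L v true) • (ind u true) -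
          (pr L u true) • (ind v true) + (pr L u true * pr L v true) • (fun _ => (1 : ℝ)) := by
      funext x
      simp only [Pi.add_apply, Pi.sub_apply, Pi.smul_apply, smul_eq_mul]
      ring
    rw [h1, map_add, map_sub, map_sub, map_smul, map_smul, map_smul, hL.one]
    simp only [smul_eq_mul]
    change _ = pr2 L u v true true - pr L v true * pr L u true - pr L u true * pr L v true + _
    unfold G
    ring
  obtain ⟨B, hB⟩ := FV.gram (G L) (fun i j => by
    unfold G
    rw [FB.symm L i j true true]
    ring) (fun x => by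
    have h2 := hL.psd ∅ (by simp) (fun _ => 1) (fun _ _ _ => rfl) (fun _ => zero_le_one)
      (fun v b => x v * ((if b = true then 1 else 0) - pr L v true))
    have e2 : (fun y : V → Bool => (1 : ℝ) * (∑ v, x v * ((if y v = true then 1 else 0)
        - pr L v true)) ^ 2) =
        ∑ i : V, ∑ j : V, (x i * x j) • (fun y : V → Bool =>
          (ind i true y - pr L i true) * (ind j true y - pr L j true)) := by
      funext y
      simp only [Finset.sum_apply, Pi.smul_apply, smul_eq_mul]
      rw [one_mul, sq, Finset.sum_mul_sum]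
      refine Finset.sum_congr rfl fun i _ => Finset.sum_congr rfl fun j _ => ?_
      unfold ind
      ring
    rw [e2] at h2
    simp only [map_sum, map_smul, smul_eq_mul] at h2
    simpa only [key] using h2)
  exact ⟨B, hB⟩

theorem dec_eq (hL : Mixed k L) (u v : V) (h0 : 0 < G L u u) :
    dec L u v = 2 * (G L u v ^ 2 / G L u u) := by
  have hg := G_self hL u
  have hp0 : pr L u true ≠ 0 := by
    intro h
    rw [h] at hg
    norm_num at hg
    linarith
  have hp1 : 1 - pr L u true ≠ 0 := by
    intro h
    have h1 : pr L u true = 1 := by linarith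
    rw [h1] at hg
    norm_num at hg
    linarith
  unfold dec
  simp only [Fintype.sum_bool]
  rw [pr_false hL u, pr_false hL v, pr2_tf hL, pr2_ft hL, pr2_ff hL]
  have e1 : (pr2 L u v true true - pr L u true * pr L v true) = G L u v := rfl
  have e2 : pr L u true - pr2 L u v true true - pr L u true * (1 - pr L v true) = -G L u v := by
    unfold G; ring
  have e3 : pr L v true - pr2 L u v true true - (1 - pr L u true) * pr L v true = -G L u v := by
    unfold G; ring
  have e4 : 1 - pr L u true - pr L v true + pr2 L u v true true -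
      (1 - pr L u true) * (1 - pr L v true) = G L u v := by
    unfold G; ring
  rw [e1, e2, e3, e4, hg]
  have h3 : pr L u true - pr L u true ^ 2 = pr L u true * (1 - pr L u true) := by ring
  rw [h3]
  field_simp
  ring

theorem ww_drop (hL : Mixed k L) (u : V) (h0 : 0 < G L u u)
    (hc : ∀ a, 0 < pr L u a → Mixed (k - 1) (cnd L u a)) :
    ∑ a, pr L u a * ww (cnd L u a) = ww L - ∑ v, G L u v ^ 2 / G L u u := by
  have hg := G_self hL u
  have hpos : ∀ a, 0 < pr L u a := by
    have h1 := Mx.pr_nonneg hL u true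
    have h2 := pr_le hL u
    intro a
    cases a
    · rw [pr_false hL u]
      refine lt_of_le_of_ne (by linarith) fun h => ?_
      have h3 : pr L u true = 1 := by linarith
      rw [h3] at hg; norm_num at hg; linarith
    · refine lt_of_le_of_ne h1 fun h => ?_
      rw [← h] at hg; norm_num at hg; linarith
  have h1 : ∀ a, ww (cnd L u a) = 1 / 2 * ∑ v, vr (cnd L u a) v := by
    intro a
    unfold ww
    rw [mul_sum]
    refine sum_congr rfl fun v _ => ?_
    rw [vr_eq (hc a (hpos a))]
    ring
  have h2 : ww L = 1 / 2 * ∑ v, vr L v := by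
    unfold ww
    rw [mul_sum]
    refine sum_congr rfl fun v _ => ?_
    rw [vr_eq hL]
    ring
  rw [sum_congr rfl fun a _ => by rw [h1 a], h2]
  have h3 : ∑ v, G L u v ^ 2 / G L u u = 1 / 2 * ∑ v, dec L u v := by
    rw [mul_sum]
    refine sum_congr rfl fun v _ => ?_
    rw [dec_eq hL u v h0]
    ring
  rw [h3, sum_congr rfl fun v _ => Mx.fd hL u v, sum_sub_distrib]
  have h4 : ∑ v, ∑ a, pr L u a * vr (cnd L u a) v = ∑ a, pr L u a * ∑ v, vr (cnd L u a) v := by
    rw [sum_comm]
    exact sum_congr rfl fun a _ => (mul_sum _ _ _).symm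
  rw [h4]
  have h5 : ∑ a, pr L u a * (1 / 2 * ∑ v, vr (cnd L u a) v) =
      1 / 2 * ∑ a, pr L u a * ∑ v, vr (cnd L u a) v := by
    rw [mul_sum]
    exact sum_congr rfl fun a _ => by ring
  rw [h5]
  ring

theorem err_avg (K : V → V → ℝ) (hL : Mixed (k + 1) L) (u : V) :
    ∑ a, pr L u a * err K (cnd L u a) = err K L := by
  have h1 : ∀ v w, ∑ a, pr L u a * (K v w * (1 - cnd L u a (sat v w 1))) =
      K v w * (1 - L (sat v w 1)) := by
    intro v w
    rw [← Mx.avg hL u v w 1]
    have h2 : (1 : ℝ) = ∑ a, pr L u a := (Mx.law hL u u).one.symm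
    conv_rhs => rw [h2]
    rw [← sum_sub_distrib, mul_sum]
    exact sum_congr rfl fun a _ => by ring
  unfold err
  simp only [mul_sum]
  rw [sum_comm]
  refine sum_congr rfl fun v _ => ?_
  rw [sum_comm]
  exact sum_congr rfl fun w _ => h1 v w

theorem SM.step (hL : SM (k + 1) m L) (u : V) (a : Bool) (ha : 0 < pr L u a) :
    SM k m (cnd L u a) := by
  refine ⟨Mx.step hL.mx u a ha, fun S hS g hg => ?_⟩
  show L (fun x => ind u a x * (g x * ∑ v, ind v true x)) / pr L u a =
    m * (L (fun x => ind u a x * g x) / pr L u a)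
  have h1 := hL.sz (insert u S) ((card_insert_le _ _).trans (by omega)) (fun x => ind u a x * g x)
    (Mx.dep_mul (Mx.dep_ind u a _ (mem_insert_self _ _)) (Mx.dep_mono hg (subset_insert _ _)))
  simp only [mul_assoc] at h1
  rw [h1]
  ring

theorem SM.mono (hL : SM (k + 1) m L) : SM k m L :=
  ⟨Mx.mono hL.mx, fun S hS g hg => hL.sz S (by omega) g hg⟩

theorem SM.size (hL : SM k m L) : ∑ v, pr L v true = m := by
  have h1 := hL.sz ∅ (by simp) (fun _ => 1) (fun _ _ _ => rfl)
  have h2 : (fun x : V → Bool => (1 : ℝ) * ∑ v, ind v true x) = ∑ v, ind v true := by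
    funext x
    rw [one_mul, Finset.sum_apply]
  rw [h2, map_sum, hL.mx.one, mul_one] at h1
  exact h1

end

end Pool.Agent.TH522.SE
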