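import Pool.Agent.TH522.SE.Kern

/-!
Decay of the walk when small sets have few steps inside of them, and the global correlation bound.
-/

set_option linter.unusedSectionVars false

namespace Pool.Agent.TH522.SE

open Finset

section
variable {V : Type} [Fintype V] [DecidableEq V] {K : V → V → ℝ} {C : Finset V}

theorem schur (hK : ∀ u v, 0 ≤ K u v) (hs : ∀ u v, K u v = K v u) (ρ a : ℝ) (ha : 1 ≤ a)
    (f g : V → ℝ) (T : Finset V)
    (hT : ∀ T' : Finset V, T' ⊆ T → T'.Nonempty → bet K T' T' ≤ ρ * T'.card) :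
    ∑ u ∈ T, ∑ v ∈ T, K u v * (f u * g v) ≤
      1 / 2 * ∑ v ∈ T, (f v ^ 2 + g v ^ 2) * (a * ρ + (∑ u ∈ T, K v u) / a) := by
  have ha0 : 0 < a := by linarith
  induction T using Finset.strongInduction with
  | H T ih =>
    rcases T.eq_empty_or_nonempty with h0 | h0
    · rw [h0]; simp
    · obtain ⟨v, hv, hvd⟩ : ∃ v ∈ T, ∑ u ∈ T, K v u ≤ ρ := by
        by_contra hcon
        push Not at hcon
        have h1 : ∑ v ∈ T, ρ < ∑ v ∈ T, ∑ u ∈ T, K v u := sum_lt_sum_of_nonempty h0 hcon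
        rw [sum_const, nsmul_eq_mul] at h1
        have h2 := hT T (subset_refl _) h0
        unfold bet at h2
        linarith
      have h1 := ih (T.erase v) (erase_ssubset hv) fun T' h2 h3 =>
        hT T' (h2.trans (erase_subset _ _)) h3
      have e1 : ∑ u ∈ T, ∑ w ∈ T, K u w * (f u * g w) =
          (∑ u ∈ T.erase v, ∑ w ∈ T.erase v, K u w * (f u * g w)) + K v v * (f v * g v) +
          ∑ u ∈ T.erase v, K v u * (f v * g u + f u * g v) := by
        rw [← add_sum_erase T _ hv, ← add_sum_erase T (fun w => K v w * (f v * g w)) hv]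
        have e2 : ∀ u ∈ T.erase v, ∑ w ∈ T, K u w * (f u * g w) =
            K v u * (f u * g v) + ∑ w ∈ T.erase v, K u w * (f u * g w) := by
          intro u _
          rw [← add_sum_erase T (fun w => K u w * (f u * g w)) hv, hs u v]
        rw [sum_congr rfl e2, sum_add_distrib]
        simp only [mul_add, sum_add_distrib]
        ring
      have e3 : ∑ w ∈ T, (f w ^ 2 + g w ^ 2) * (a * ρ + (∑ u ∈ T, K w u) / a) =
          (f v ^ 2 + g v ^ 2) * (a * ρ + (∑ u ∈ T, K v u) / a) +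
          ((∑ w ∈ T.erase v, (f w ^ 2 + g w ^ 2) * (a * ρ + (∑ u ∈ T.erase v, K w u) / a)) +
            ∑ w ∈ T.erase v, (f w ^ 2 + g w ^ 2) * (K v w / a)) := by
        rw [← add_sum_erase T _ hv, ← sum_add_distrib]
        congr 1
        refine sum_congr rfl fun w _ => ?_
        rw [← add_sum_erase T (fun u => K w u) hv, hs w v]
        ring
      rw [e1, e3]
      have h4 : ∑ u ∈ T.erase v, K v u * (f v * g u + f u * g v) ≤
          1 / 2 * ((f v ^ 2 + g v ^ 2) * (a * ∑ u ∈ T.erase v, K v u)) +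
          1 / 2 * ∑ w ∈ T.erase v, (f w ^ 2 + g w ^ 2) * (K v w / a) := by
        have e4 : 1 / 2 * ((f v ^ 2 + g v ^ 2) * (a * ∑ u ∈ T.erase v, K v u)) +
            1 / 2 * ∑ w ∈ T.erase v, (f w ^ 2 + g w ^ 2) * (K v w / a) =
            ∑ u ∈ T.erase v, K v u * (1 / 2 * ((f v ^ 2 + g v ^ 2) * a +
              (f u ^ 2 + g u ^ 2) / a)) := by
          rw [mul_sum, mul_sum, mul_sum, mul_sum, ← sum_add_distrib]
          refine sum_congr rfl fun u _ => by ring
        rw [e4]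
        refine sum_le_sum fun u _ => mul_le_mul_of_nonneg_left ?_ (hK v u)
        have h5 : ∀ x y : ℝ, x * y ≤ 1 / 2 * (x ^ 2 * a + y ^ 2 / a) := by
          intro x y
          have h6 : 0 ≤ (x * a - y) ^ 2 / a := by positivity
          have h7 : (x * a - y) ^ 2 / a = x ^ 2 * a + y ^ 2 / a - 2 * (x * y) := by
            field_simp
            ring
          linarith
        have h8 := h5 (f v) (g u)
        have h9 := h5 (g v) (f u)
        have e5 : (f v ^ 2 + g v ^ 2) * a + (f u ^ 2 + g u ^ 2) / a =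
            (f v ^ 2 * a + g u ^ 2 / a) + (g v ^ 2 * a + f u ^ 2 / a) := by ring
        rw [e5]
        linarith
      have h5 : K v v * (f v * g v) ≤ 1 / 2 * ((f v ^ 2 + g v ^ 2) * (a * K v v)) := by
        have h6 : f v * g v ≤ 1 / 2 * (f v ^ 2 + g v ^ 2) := by nlinarith [sq_nonneg (f v - g v)]
        have h7 : 0 ≤ K v v * (f v ^ 2 + g v ^ 2) := mul_nonneg (hK v v) (by positivity)
        have h8 := mul_le_mul_of_nonneg_left h6 (hK v v)
        nlinarith
      have h6 : 1 / 2 * ((f v ^ 2 + g v ^ 2) * (a * ∑ u ∈ T.erase v, K v u)) +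
          1 / 2 * ((f v ^ 2 + g v ^ 2) * (a * K v v)) ≤
          1 / 2 * ((f v ^ 2 + g v ^ 2) * (a * ρ + (∑ u ∈ T, K v u) / a)) := by
        have e6 : ∑ u ∈ T, K v u = K v v + ∑ u ∈ T.erase v, K v u :=
          (add_sum_erase T (fun u => K v u) hv).symm
        have h7 : 0 ≤ (∑ u ∈ T, K v u) / a := div_nonneg (sum_nonneg fun u _ => hK v u) ha0.le
        have h8 : a * (∑ u ∈ T, K v u) ≤ a * ρ := mul_le_mul_of_nonneg_left hvd ha0.le
        have h9 : 0 ≤ f v ^ 2 + g v ^ 2 := by positivity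
        calc 1 / 2 * ((f v ^ 2 + g v ^ 2) * (a * ∑ u ∈ T.erase v, K v u)) +
            1 / 2 * ((f v ^ 2 + g v ^ 2) * (a * K v v))
            = 1 / 2 * ((f v ^ 2 + g v ^ 2) * (a * ∑ u ∈ T, K v u)) := by rw [e6]; ring
          _ ≤ _ := by
            refine mul_le_mul_of_nonneg_left (mul_le_mul_of_nonneg_left ?_ h9) (by norm_num)
            linarith
      linarith

/-- one step of the walk -/
def ap (K : V → V → ℝ) (f : V → ℝ) : V → ℝ := fun u => ∑ v, K u v * f v

/-- scalar product -/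
def ip (f g : V → ℝ) : ℝ := ∑ v, f v * g v

theorem ap_nonneg (h : IsK K C) (f : V → ℝ) (hf : ∀ v, 0 ≤ f v) (v : V) : 0 ≤ ap K f v :=
  sum_nonneg fun u _ => mul_nonneg (h.nonneg v u) (hf u)

theorem ap_sum (h : IsK K C) (f : V → ℝ) (hf : ∀ v, 0 ≤ f v) : ∑ v, ap K f v ≤ ∑ v, f v := by
  unfold ap
  rw [sum_comm]
  refine sum_le_sum fun v _ => ?_
  rw [← sum_mul]
  have : ∑ u, K u v ≤ 1 := by
    rw [sum_congr rfl fun u _ => h.symm u v]
    exact h.row_le v
  nlinarith [hf v]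

theorem card_le (f : V → ℝ) (hf : ∀ v, 0 ≤ f v) (h1 : ∑ v, f v ≤ 1) (θ : ℝ) (hθ : 0 < θ) :
    ((univ.filter fun v => θ ≤ f v).card : ℝ) ≤ 1 / θ := by
  rw [le_div_iff₀ hθ]
  calc ((univ.filter fun v => θ ≤ f v).card : ℝ) * θ = ∑ v ∈ univ.filter fun v => θ ≤ f v, θ := by
        rw [sum_const, nsmul_eq_mul]
    _ ≤ ∑ v ∈ univ.filter fun v => θ ≤ f v, f v := sum_le_sum fun v hv => (mem_filter.1 hv).2
    _ ≤ ∑ v, f v := sum_le_sum_of_subset_of_nonneg (filter_subset _ _) fun v _ _ => hf v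
    _ ≤ 1 := h1

theorem decay1 (h : IsK K C) (ρ : ℝ) (hρ : 0 < ρ) (hρ1 : ρ ≤ 1 / 4) (θ : ℝ) (hθ : 0 < θ)
    (hden : ∀ T : Finset V, T ⊆ C → T.Nonempty → (T.card : ℝ) ≤ 2 / θ → bet K T T ≤ ρ * T.card)
    (f : V → ℝ) (hf : ∀ v, 0 ≤ f v) (hf1 : ∑ v, f v ≤ 1) :
    ip (ap K f) (ap K f) ≤ 4 * θ + 2 * Real.sqrt ρ * ip f f := by
  set g := ap K f with hg
  set r := Real.sqrt ρ with hr
  have hr0 : 0 < r := Real.sqrt_pos.2 hρ
  have hr2 : r ^ 2 = ρ := Real.sq_sqrt hρ.le
  have hr1 : r ≤ 1 / 2 := by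
    by_contra hcon
    push Not at hcon
    nlinarith
  have hg0 : ∀ v, 0 ≤ g v := ap_nonneg h f hf
  have hg1 : ∑ v, g v ≤ 1 := (ap_sum h f hf).trans hf1
  set T : Finset V := univ.filter fun u => u ∈ C ∧ (θ ≤ f u ∨ θ ≤ g u) with hT
  have hTc : (T.card : ℝ) ≤ 2 / θ := by
    have h1 : T ⊆ (univ.filter fun u => θ ≤ f u) ∪ univ.filter fun u => θ ≤ g u := by
      intro u hu
      rw [hT, mem_filter] at hu
      rw [mem_union, mem_filter, mem_filter]
      rcases hu.2.2 with h2 | h2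
      · exact Or.inl ⟨mem_univ _, h2⟩
      · exact Or.inr ⟨mem_univ _, h2⟩
    have h2 : (T.card : ℝ) ≤ ((univ.filter fun u => θ ≤ f u).card : ℝ) +
        ((univ.filter fun u => θ ≤ g u).card : ℝ) := by
      exact_mod_cast (card_le_card h1).trans (card_union_le _ _)
    have h3 := card_le f hf hf1 θ hθ
    have h4 := card_le g hg0 hg1 θ hθ
    have : 2 / θ = 1 / θ + 1 / θ := by ring
    linarith
  have hTC : T ⊆ C := fun u hu => (mem_filter.1 hu).2.1
  have hsch := schur h.nonneg h.symm ρ (1 / r) (by rw [le_div_iff₀ hr0]; linarith) g f T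
    fun T' h1 h2 => hden T' (h1.trans hTC) h2 (le_trans (by exact_mod_cast card_le_card h1) hTc)
  have hsch2 : ∑ u ∈ T, ∑ v ∈ T, K u v * (g u * f v) ≤ r * (ip f f + ip g g) := by
    refine hsch.trans ?_
    have h1 : ∀ v ∈ T, (g v ^ 2 + f v ^ 2) * (1 / r * ρ + (∑ u ∈ T, K v u) / (1 / r)) ≤
        (g v ^ 2 + f v ^ 2) * (2 * r) := by
      intro v _
      refine mul_le_mul_of_nonneg_left ?_ (by positivity)
      have h2 : ∑ u ∈ T, K v u ≤ 1 :=
        (sum_le_sum_of_subset_of_nonneg (subset_univ _) fun u _ _ => h.nonneg v u).trans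
          (h.row_le v)
      have h3 : 1 / r * ρ = r := by rw [← hr2]; field_simp
      have h4 : (∑ u ∈ T, K v u) / (1 / r) = r * ∑ u ∈ T, K v u := by field_simp
      rw [h3, h4]
      nlinarith
    refine (mul_le_mul_of_nonneg_left (sum_le_sum h1) (by norm_num)).trans ?_
    rw [← sum_mul]
    have h5 : ∑ v ∈ T, (g v ^ 2 + f v ^ 2) ≤ ip f f + ip g g := by
      refine (sum_le_sum_of_subset_of_nonneg (subset_univ T)
        fun v _ _ => by positivity).trans (le_of_eq ?_)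
      unfold ip
      rw [← sum_add_distrib]
      exact sum_congr rfl fun v _ => by ring
    nlinarith
  have hmain : ip g g ≤ (∑ u ∈ T, ∑ v ∈ T, K u v * (g u * f v)) + θ * (∑ v, g v) +
      θ * ∑ v, g v := by
    have e1 : ip g g = ∑ u, ∑ v, K u v * (g u * f v) := by
      unfold ip
      refine sum_congr rfl fun u _ => ?_
      have e0 : g u = ∑ v, K u v * f v := rfl
      calc g u * g u = g u * ∑ v, K u v * f v := by rw [← e0]
        _ = _ := by
          rw [mul_sum]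
          exact sum_congr rfl fun v _ => by ring
    have e2 : ∑ u ∈ T, ∑ v ∈ T, K u v * (g u * f v) =
        ∑ u, ∑ v, if u ∈ T ∧ v ∈ T then K u v * (g u * f v) else 0 := by
      rw [← sum_filter_add_sum_filter_not univ (fun u => u ∈ T)]
      have e3 : ∑ u ∈ univ.filter (fun u => ¬ u ∈ T), ∑ v,
          (if u ∈ T ∧ v ∈ T then K u v * (g u * f v) else 0) = 0 := by
        refine sum_eq_zero fun u hu => sum_eq_zero fun v _ => ?_
        rw [if_neg fun h1 => (mem_filter.1 hu).2 h1.1]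
      rw [e3, add_zero]
      have e4 : univ.filter (fun u => u ∈ T) = T := by ext; simp
      rw [e4]
      refine sum_congr rfl fun u hu => ?_
      rw [← sum_filter_add_sum_filter_not univ (fun v => v ∈ T)]
      have e5 : ∑ v ∈ univ.filter (fun v => ¬ v ∈ T),
          (if u ∈ T ∧ v ∈ T then K u v * (g u * f v) else 0) = 0 := by
        refine sum_eq_zero fun v hv => ?_
        rw [if_neg fun h1 => (mem_filter.1 hv).2 h1.2]
      rw [e5, add_zero, e4]
      refine sum_congr rfl fun v hv => ?_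
      rw [if_pos ⟨hu, hv⟩]
    have e6 : θ * ∑ v, g v = ∑ u, ∑ v, θ * (K u v * f v) := by
      rw [mul_sum]
      refine sum_congr rfl fun u _ => ?_
      rw [← mul_sum]
      rfl
    have e7 : ∑ u, ∑ v, θ * (K u v * g u) ≤ θ * ∑ v, g v := by
      rw [mul_sum]
      refine sum_le_sum fun u _ => ?_
      rw [← mul_sum, ← sum_mul]
      refine mul_le_mul_of_nonneg_left ?_ hθ.le
      have := h.row_le u
      nlinarith [hg0 u]
    have e8 : ∑ u, ∑ v, K u v * (g u * f v) ≤
        (∑ u, ∑ v, if u ∈ T ∧ v ∈ T then K u v * (g u * f v) else 0) +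
        (∑ u, ∑ v, θ * (K u v * f v)) + ∑ u, ∑ v, θ * (K u v * g u) := by
      rw [← sum_add_distrib, ← sum_add_distrib]
      refine sum_le_sum fun u _ => ?_
      rw [← sum_add_distrib, ← sum_add_distrib]
      refine sum_le_sum fun v _ => ?_
      have k0 := h.nonneg u v
      have a1 : 0 ≤ θ * (K u v * f v) := mul_nonneg hθ.le (mul_nonneg k0 (hf v))
      have a2 : 0 ≤ θ * (K u v * g u) := mul_nonneg hθ.le (mul_nonneg k0 (hg0 u))
      by_cases hu : u ∈ T
      · by_cases hv : v ∈ T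
        · rw [if_pos ⟨hu, hv⟩]
          linarith
        · rw [if_neg fun h1 => hv h1.2]
          by_cases hvC : v ∈ C
          · have h2 : f v < θ := by
              by_contra hcon
              push Not at hcon
              exact hv (mem_filter.2 ⟨mem_univ _, hvC, Or.inl hcon⟩)
            have h3 : K u v * (g u * f v) ≤ θ * (K u v * g u) := by
              have := mul_le_mul_of_nonneg_left h2.le (mul_nonneg k0 (hg0 u))
              linarith
            linarith
          · rw [h.supp' u v hvC]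
            simp
      · rw [if_neg fun h1 => hu h1.1]
        by_cases huC : u ∈ C
        · have h2 : g u < θ := by
            by_contra hcon
            push Not at hcon
            exact hu (mem_filter.2 ⟨mem_univ _, huC, Or.inr hcon⟩)
          have h3 : K u v * (g u * f v) ≤ θ * (K u v * f v) := by
            have := mul_le_mul_of_nonneg_left h2.le (mul_nonneg k0 (hf v))
            linarith
          linarith
        · rw [h.supp u v huC]
          simp
    rw [e1, e2]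
    linarith
  have hf2 : 0 ≤ ip f f := sum_nonneg fun v _ => mul_self_nonneg _
  have hg2 : 0 ≤ ip g g := sum_nonneg fun v _ => mul_self_nonneg _
  have h9 : θ * (∑ v, g v) ≤ θ := by nlinarith
  have h10 : ip g g ≤ r * (ip f f + ip g g) + 2 * θ := by linarith
  nlinarith

/-- the unit vector -/
def dv (v : V) : V → ℝ := fun u => if u = v then 1 else 0

theorem decay (h : IsK K C) (ρ : ℝ) (hρ : 0 < ρ) (θ : ℝ) (hθ : 0 < θ) (σ : ℝ)
    (hσ : 2 * Real.sqrt ρ ≤ σ) (hσ1 : σ ≤ 1 / 2)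
    (hden : ∀ T : Finset V, T ⊆ C → T.Nonempty → (T.card : ℝ) ≤ 2 / θ → bet K T T ≤ ρ * T.card)
    (v : V) (s : ℕ) :
    ip ((ap K)^[s] (dv v)) ((ap K)^[s] (dv v)) ≤ σ ^ s + 8 * θ := by
  have hρ1 : ρ ≤ 1 / 4 := by
    have h1 : Real.sqrt ρ ≤ 1 / 4 := by linarith
    have h2 := Real.sq_sqrt hρ.le
    have h3 := Real.sqrt_nonneg ρ
    nlinarith
  have hnn : ∀ s, (∀ u, 0 ≤ (ap K)^[s] (dv v) u) ∧ ∑ u, (ap K)^[s] (dv v) u ≤ 1 := by
    intro s
    induction s with
    | zero =>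
      refine ⟨fun u => ?_, ?_⟩
      · show 0 ≤ dv v u
        unfold dv
        split_ifs <;> norm_num
      · show ∑ u, dv v u ≤ 1
        unfold dv
        simp
    | succ s ih =>
      rw [Function.iterate_succ_apply']
      exact ⟨ap_nonneg h _ ih.1, (ap_sum h _ ih.1).trans ih.2⟩
  induction s with
  | zero =>
    show ip (dv v) (dv v) ≤ _
    have : ip (dv v) (dv v) = 1 := by
      unfold ip dv
      simp
    rw [this, pow_zero]
    linarith
  | succ s ih =>
    rw [Function.iterate_succ_apply']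
    refine (decay1 h ρ hρ hρ1 θ hθ hden _ (hnn s).1 (hnn s).2).trans ?_
    have h0 : 0 ≤ ip ((ap K)^[s] (dv v)) ((ap K)^[s] (dv v)) :=
      sum_nonneg fun v _ => mul_self_nonneg _
    have hσ0 : 0 ≤ σ := le_trans (by have := Real.sqrt_nonneg ρ; linarith) hσ
    have h1 : 2 * Real.sqrt ρ * ip ((ap K)^[s] (dv v)) ((ap K)^[s] (dv v)) ≤
        σ * (σ ^ s + 8 * θ) := by
      calc _ ≤ σ * ip ((ap K)^[s] (dv v)) ((ap K)^[s] (dv v)) :=
            mul_le_mul_of_nonneg_right hσ h0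
        _ ≤ _ := mul_le_mul_of_nonneg_left ih hσ0
    have h2 : σ * (σ ^ s + 8 * θ) = σ ^ (s + 1) + σ * (8 * θ) := by ring
    have h3 : σ * (8 * θ) ≤ 4 * θ := by nlinarith
    linarith

theorem ip_comm (f g : V → ℝ) : ip f g = ip g f := by
  unfold ip
  exact sum_congr rfl fun v _ => mul_comm _ _

theorem ap_symm (hs : ∀ u v, K u v = K v u) (f g : V → ℝ) : ip (ap K f) g = ip f (ap K g) := by
  unfold ip ap
  simp only [sum_mul, mul_sum]
  rw [sum_comm]
  refine sum_congr rfl fun u _ => sum_congr rfl fun v _ => ?_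
  rw [hs u v]
  ring

theorem it_symm (hs : ∀ u v, K u v = K v u) (f g : V → ℝ) (s : ℕ) :
    ip ((ap K)^[s] f) g = ip f ((ap K)^[s] g) := by
  induction s generalizing f with
  | zero => rfl
  | succ s ih =>
    rw [Function.iterate_succ_apply, ih, ap_symm hs, ← Function.iterate_succ_apply' (ap K) s g]

theorem ap_add (f g : V → ℝ) (c : ℝ) : ap K (fun v => f v + c * g v) =
    fun v => ap K f v + c * ap K g v := by
  funext u
  unfold ap
  rw [mul_sum, ← sum_add_distrib]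
  exact sum_congr rfl fun v _ => by ring

theorem it_kernel (hs : ∀ u v, K u v = K v u) (f : V → ℝ) (s : ℕ) (u : V) :
    (ap K)^[s] f u = ∑ v, (ap K)^[s] (dv v) u * f v := by
  have h1 : ∀ g : V → ℝ, ∀ w, ip (dv w) g = g w := by
    intro g w
    unfold ip dv
    simp
  have h2 : (ap K)^[s] f u = ip ((ap K)^[s] (dv u)) f := by
    rw [it_symm hs, h1]
  have h3 : ∀ v, (ap K)^[s] (dv v) u = (ap K)^[s] (dv u) v := by
    intro v
    rw [← h1 ((ap K)^[s] (dv v)) u, ← it_symm hs, ip_comm, h1]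
  rw [h2]
  unfold ip
  exact sum_congr rfl fun v _ => by rw [h3 v]

theorem cs {J : Type} [Fintype J] (X Y : J → V → ℝ) :
    (∑ j, ip (X j) (Y j)) ^ 2 ≤ (∑ j, ip (X j) (X j)) * ∑ j, ip (Y j) (Y j) := by
  unfold ip
  have h1 := Finset.sum_mul_sq_le_sq_mul_sq ((univ : Finset J) ×ˢ (univ : Finset V))
    (fun p => X p.1 p.2) (fun p => Y p.1 p.2)
  rw [sum_product, sum_product, sum_product] at h1
  simpa only [sq] using h1

/-- growth of the moments -/
theorem moments {J : Type} [Fintype J] (hs : ∀ u v, K u v = K v u) (U : J → V → ℝ) (τ : ℝ)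
    (hτ1 : τ < 1) (h0 : 0 < ∑ j, ip (U j) (U j))
    (h1 : (1 - τ) * ∑ j, ip (U j) (U j) ≤ ∑ j, ip (U j) (ap K (U j))) (s : ℕ) :
    (1 - τ) ^ (2 * s) * ∑ j, ip (U j) (U j) ≤ ∑ j, ip ((ap K)^[s] (U j)) ((ap K)^[s] (U j)) := by
  set c : ℕ → ℝ := fun s => ∑ j, ip ((ap K)^[s] (U j)) ((ap K)^[s] (U j)) with hc
  have hc0 : c 0 = ∑ j, ip (U j) (U j) := rfl
  have hτ : 0 < 1 - τ := by linarith
  have key : ∀ s, 0 < c s ∧ (1 - τ) ^ 2 * c s ≤ c (s + 1) := by
    intro s
    induction s with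
    | zero =>
      refine ⟨by rw [hc0]; exact h0, ?_⟩
      have h2 := cs U (fun j => ap K (U j))
      have h3 : c 1 = ∑ j, ip (ap K (U j)) (ap K (U j)) := rfl
      rw [← h3, ← hc0] at h2
      rw [← hc0] at h1 h0
      have h4 : ((1 - τ) * c 0) ^ 2 ≤ c 0 * c 1 :=
        (pow_le_pow_left₀ (by positivity) h1 2).trans h2
      have h5 : c 0 * ((1 - τ) ^ 2 * c 0) ≤ c 0 * c 1 := by
        calc _ = ((1 - τ) * c 0) ^ 2 := by ring
          _ ≤ _ := h4
      exact le_of_mul_le_mul_left h5 h0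
    | succ s ih =>
      obtain ⟨i1, i2⟩ := ih
      have h2 : 0 < c (s + 1) := lt_of_lt_of_le (by positivity) i2
      refine ⟨h2, ?_⟩
      have h3 := cs (fun j => (ap K)^[s] (U j)) (fun j => (ap K)^[s + 2] (U j))
      have h4 : ∀ j, ip ((ap K)^[s] (U j)) ((ap K)^[s + 2] (U j)) =
          ip ((ap K)^[s + 1] (U j)) ((ap K)^[s + 1] (U j)) := by
        intro j
        rw [Function.iterate_succ_apply' (ap K) (s + 1), ← ap_symm hs,
          Function.iterate_succ_apply' (ap K) s]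
      simp only [h4] at h3
      change c (s + 1) ^ 2 ≤ c s * c (s + 2) at h3
      have h5 : c s * ((1 - τ) ^ 2 * c (s + 1)) ≤ c s * c (s + 2) := by
        calc _ = ((1 - τ) ^ 2 * c s) * c (s + 1) := by ring
          _ ≤ c (s + 1) * c (s + 1) := mul_le_mul_of_nonneg_right i2 h2.le
          _ = c (s + 1) ^ 2 := by ring
          _ ≤ _ := h3
      exact le_of_mul_le_mul_left h5 i1
  induction s with
  | zero => rw [mul_zero, pow_zero, one_mul]; rfl
  | succ s ih =>
    have h2 := (key s).2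
    calc (1 - τ) ^ (2 * (s + 1)) * ∑ j, ip (U j) (U j)
        = (1 - τ) ^ 2 * ((1 - τ) ^ (2 * s) * ∑ j, ip (U j) (U j)) := by ring
      _ ≤ (1 - τ) ^ 2 * c s := mul_le_mul_of_nonneg_left ih (by positivity)
      _ ≤ c (s + 1) := h2

/-- global correlation -/
theorem gc {J : Type} [Fintype J] (h : IsK K C) (ρ : ℝ) (hρ : 0 < ρ) (θ : ℝ) (hθ : 0 < θ) (σ : ℝ)
    (hσ : 2 * Real.sqrt ρ ≤ σ) (hσ1 : σ ≤ 1 / 2)
    (hden : ∀ T : Finset V, T ⊆ C → T.Nonempty → (T.card : ℝ) ≤ 2 / θ → bet K T T ≤ ρ * T.card)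
    (U : J → V → ℝ) (τ : ℝ) (hτ1 : τ < 1) (h0 : 0 < ∑ j, ∑ v ∈ C, U j v ^ 2)
    (hen : ∑ j, en K (U j) ≤ 2 * τ * ∑ j, ∑ v ∈ C, U j v ^ 2) (s : ℕ) :
    ((1 - τ) ^ (2 * s) * ∑ j, ∑ v ∈ C, U j v ^ 2) ^ 2 ≤
      (Fintype.card V * (σ ^ (2 * s) + 8 * θ)) * ∑ u, ∑ v, (∑ j, U j u * U j v) ^ 2 := by
  set W : J → V → ℝ := fun j v => if v ∈ C then U j v else 0 with hW
  have e1 : ∀ j, ip (W j) (W j) = ∑ v ∈ C, U j v ^ 2 := by
    intro j
    unfold ip
    rw [← sum_filter_add_sum_filter_not univ (fun u => u ∈ C)]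
    have e4 : univ.filter (fun u => u ∈ C) = C := by ext; simp
    have e3 : ∑ v ∈ univ.filter (fun u => ¬ u ∈ C), W j v * W j v = 0 :=
      sum_eq_zero fun v hv => by simp only [hW]; rw [if_neg (mem_filter.1 hv).2, mul_zero]
    rw [e3, add_zero, e4]
    refine sum_congr rfl fun v hv => ?_
    simp only [hW]
    rw [if_pos hv]
    ring
  have e2 : ∀ j, ip (W j) (ap K (W j)) = ∑ u, ∑ v, K u v * (U j u * U j v) := by
    intro j
    unfold ip ap
    refine sum_congr rfl fun u _ => ?_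
    rw [mul_sum]
    refine sum_congr rfl fun v _ => ?_
    simp only [hW]
    by_cases hu : u ∈ C
    · by_cases hv : v ∈ C
      · rw [if_pos hu, if_pos hv]; ring
      · rw [h.supp' u v hv]; ring
    · rw [h.supp u v hu]; ring
  have e3 : ∀ j, en K (U j) = 2 * ip (W j) (W j) - 2 * ip (W j) (ap K (W j)) := by
    intro j
    rw [e1, e2]
    unfold en
    have e5 : ∀ u v, K u v * (U j u - U j v) ^ 2 = K u v * U j u ^ 2 + K u v * U j v ^ 2 -
        2 * (K u v * (U j u * U j v)) := fun u v => by ring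
    simp only [e5, sum_add_distrib, sum_sub_distrib, ← mul_sum]
    have e6 : ∑ u, ∑ v, K u v * U j u ^ 2 = ∑ v ∈ C, U j v ^ 2 := by
      rw [← sum_filter_add_sum_filter_not univ (fun u => u ∈ C)]
      have e4 : univ.filter (fun u => u ∈ C) = C := by ext; simp
      have e7 : ∑ u ∈ univ.filter (fun u => ¬ u ∈ C), ∑ v, K u v * U j u ^ 2 = 0 :=
        sum_eq_zero fun u hu => sum_eq_zero fun v _ => by
          rw [h.supp u v (mem_filter.1 hu).2, zero_mul]
      rw [e7, add_zero, e4]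
      refine sum_congr rfl fun u hu => ?_
      rw [← sum_mul, h.row u hu, one_mul]
    have e8 : ∑ u, ∑ v, K u v * U j v ^ 2 = ∑ v ∈ C, U j v ^ 2 := by
      rw [sum_comm, ← e6]
      refine sum_congr rfl fun u _ => sum_congr rfl fun v _ => by rw [h.symm]
    have e9 : ∑ u, ∑ v, K u v * U j u ^ 2 = ∑ u, (∑ v, K u v) * U j u ^ 2 :=
      sum_congr rfl fun u _ => (sum_mul _ _ _).symm
    simp only [← sum_mul]
    rw [← e9, e6, e8]
    ring
  have f1 : ∑ j, ip (W j) (W j) = ∑ j, ∑ v ∈ C, U j v ^ 2 := sum_congr rfl fun j _ => e1 j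
  have f2 : (1 - τ) * ∑ j, ip (W j) (W j) ≤ ∑ j, ip (W j) (ap K (W j)) := by
    simp only [e3, sum_sub_distrib, ← mul_sum] at hen
    rw [← f1] at hen
    linarith
  have hmom := moments h.symm W τ hτ1 (by rw [f1]; exact h0) f2 s
  rw [f1] at hmom
  have hH : ∑ j, ip ((ap K)^[s] (W j)) ((ap K)^[s] (W j)) =
      ∑ u, ∑ v, (ap K)^[2 * s] (dv v) u * ∑ j, W j u * W j v := by
    have g1 : ∀ j, ip ((ap K)^[s] (W j)) ((ap K)^[s] (W j)) =
        ∑ u, ∑ v, (ap K)^[2 * s] (dv v) u * (W j u * W j v) := by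
      intro j
      rw [it_symm h.symm, ← Function.iterate_add_apply, ← two_mul]
      unfold ip
      refine sum_congr rfl fun u _ => ?_
      rw [it_kernel h.symm (W j), mul_sum]
      exact sum_congr rfl fun v _ => by ring
    rw [sum_congr rfl fun j _ => g1 j, sum_comm]
    refine sum_congr rfl fun u _ => ?_
    rw [sum_comm]
    exact sum_congr rfl fun v _ => (mul_sum _ _ _).symm
  rw [hH] at hmom
  have hcs : (∑ u, ∑ v, (ap K)^[2 * s] (dv v) u * ∑ j, W j u * W j v) ^ 2 ≤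
      (∑ u, ∑ v, ((ap K)^[2 * s] (dv v) u) ^ 2) * ∑ u, ∑ v, (∑ j, W j u * W j v) ^ 2 := by
    have h1 := Finset.sum_mul_sq_le_sq_mul_sq ((univ : Finset V) ×ˢ (univ : Finset V))
      (fun p => (ap K)^[2 * s] (dv p.2) p.1) (fun p => ∑ j, W j p.1 * W j p.2)
    rwa [sum_product, sum_product, sum_product] at h1
  have hF : ∑ u, ∑ v, ((ap K)^[2 * s] (dv v) u) ^ 2 ≤
      Fintype.card V * (σ ^ (2 * s) + 8 * θ) := by
    rw [sum_comm]
    calc ∑ v, ∑ u, ((ap K)^[2 * s] (dv v) u) ^ 2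
        = ∑ v, ip ((ap K)^[2 * s] (dv v)) ((ap K)^[2 * s] (dv v)) := by
          refine sum_congr rfl fun v _ => ?_
          unfold ip
          exact sum_congr rfl fun u _ => sq _
      _ ≤ ∑ v : V, (σ ^ (2 * s) + 8 * θ) :=
          sum_le_sum fun v _ => decay h ρ hρ θ hθ σ hσ hσ1 hden v (2 * s)
      _ = _ := by rw [sum_const, nsmul_eq_mul, card_univ]
  have hG : ∑ u, ∑ v, (∑ j, W j u * W j v) ^ 2 ≤ ∑ u, ∑ v, (∑ j, U j u * U j v) ^ 2 := by
    refine sum_le_sum fun u _ => sum_le_sum fun v _ => ?_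
    by_cases hu : u ∈ C
    · by_cases hv : v ∈ C
      · simp only [hW, if_pos hu, if_pos hv]; exact le_rfl
      · simp only [hW, if_neg hv, mul_zero, sum_const_zero]
        rw [zero_pow two_ne_zero]
        exact sq_nonneg _
    · simp only [hW, if_neg hu, zero_mul, sum_const_zero]
      rw [zero_pow two_ne_zero]
      exact sq_nonneg _
  have hG0 : 0 ≤ ∑ u, ∑ v, (∑ j, W j u * W j v) ^ 2 :=
    sum_nonneg fun u _ => sum_nonneg fun v _ => sq_nonneg _
  have hF0 : 0 ≤ (Fintype.card V : ℝ) * (σ ^ (2 * s) + 8 * θ) :=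
    le_trans (sum_nonneg fun u _ => sum_nonneg fun v _ => sq_nonneg _) hF
  calc ((1 - τ) ^ (2 * s) * ∑ j, ∑ v ∈ C, U j v ^ 2) ^ 2
      ≤ (∑ u, ∑ v, (ap K)^[2 * s] (dv v) u * ∑ j, W j u * W j v) ^ 2 := by
        refine pow_le_pow_left₀ ?_ hmom 2
        rw [pow_mul]
        positivity
    _ ≤ _ := hcs
    _ ≤ (Fintype.card V * (σ ^ (2 * s) + 8 * θ)) * ∑ u, ∑ v, (∑ j, W j u * W j v) ^ 2 :=
        mul_le_mul_of_nonneg_right hF hG0
    _ ≤ _ := mul_le_mul_of_nonneg_left hG hF0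

end

end Pool.Agent.TH522.SE
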