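import Mathlib

/-!
Symmetric kernels on a finite set: elimination of a set of points (the induced walk outside of it),
the energy, and the number of steps inside small sets.
-/

set_option linter.unusedSectionVars false

namespace Pool.Agent.TH522.SE

open Finset

section
variable {V : Type} [Fintype V] [DecidableEq V]

/-- a symmetric walk on `C` -/
structure IsK (K : V → V → ℝ) (C : Finset V) : Prop where
  nonneg : ∀ u v, 0 ≤ K u v
  symm : ∀ u v, K u v = K v u
  supp : ∀ u v, u ∉ C → K u v = 0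
  row : ∀ u ∈ C, ∑ v, K u v = 1

/-- weight between two sets -/
def bet (K : V → V → ℝ) (S T : Finset V) : ℝ := ∑ u ∈ S, ∑ v ∈ T, K u v

/-- energy (ordered pairs) -/
def en (K : V → V → ℝ) (f : V → ℝ) : ℝ := ∑ u, ∑ v, K u v * (f u - f v) ^ 2

/-- elimination of one point -/
noncomputable def elim (K : V → V → ℝ) (b : V) : V → V → ℝ := fun u v =>
  if u = b ∨ v = b then 0 else K u v + K u b * K b v / (1 - K b b)

variable {K : V → V → ℝ} {C : Finset V}

theorem IsK.supp' (h : IsK K C) (u v : V) (hv : v ∉ C) : K u v = 0 := by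
  rw [h.symm]; exact h.supp v u hv

theorem IsK.le_one (h : IsK K C) (u v : V) : K u v ≤ 1 := by
  by_cases hu : u ∈ C
  · rw [← h.row u hu]
    exact single_le_sum (f := fun v => K u v) (fun v _ => h.nonneg u v) (mem_univ v)
  · rw [h.supp u v hu]; exact zero_le_one

theorem IsK.row_le (h : IsK K C) (u : V) : ∑ v, K u v ≤ 1 := by
  by_cases hu : u ∈ C
  · rw [h.row u hu]
  · rw [sum_eq_zero fun v _ => h.supp u v hu]; exact zero_le_one

/-- the mass outside of `b` seen from `b` -/
theorem IsK.row_erase (h : IsK K C) (b : V) (hb : b ∈ C) :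
    ∑ v ∈ univ.erase b, K b v = 1 - K b b := by
  have h1 := h.row b hb
  rw [← add_sum_erase univ (fun v => K b v) (mem_univ b)] at h1
  linarith

theorem IsK.zero_of_one (h : IsK K C) (b : V) (hb : b ∈ C) (h1 : 1 - K b b = 0) (v : V)
    (hv : v ≠ b) : K b v = 0 := by
  have h2 := h.row_erase b hb
  rw [h1] at h2
  exact (sum_eq_zero_iff_of_nonneg fun v _ => h.nonneg b v).1 h2 v (mem_erase.2 ⟨hv, mem_univ v⟩)

theorem IsK.elim (h : IsK K C) (b : V) (hb : b ∈ C) : IsK (elim K b) (C.erase b) where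
  nonneg u v := by
    unfold SE.elim
    split_ifs
    · exact le_rfl
    · have := h.le_one b b
      exact add_nonneg (h.nonneg u v) (div_nonneg (mul_nonneg (h.nonneg _ _) (h.nonneg _ _))
        (by linarith))
  symm u v := by
    unfold SE.elim
    by_cases h1 : u = b ∨ v = b
    · rw [if_pos h1, if_pos h1.symm]
    · rw [if_neg h1, if_neg fun h2 => h1 h2.symm, h.symm u v, h.symm u b, h.symm b v]
      ring
  supp u v hu := by
    unfold SE.elim
    by_cases h1 : u = b ∨ v = b
    · rw [if_pos h1]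
    · rw [if_neg h1]
      push Not at h1
      have h2 : u ∉ C := fun h3 => hu (mem_erase.2 ⟨h1.1, h3⟩)
      rw [h.supp u v h2, h.supp u b h2]
      simp
  row u hu := by
    obtain ⟨hub, huC⟩ := mem_erase.1 hu
    have h1 : ∀ v, SE.elim K b u v = if v = b then 0 else
        (K u v + K u b * K b v / (1 - K b b)) := by
      intro v
      unfold SE.elim
      by_cases hv : v = b
      · rw [if_pos (Or.inr hv), if_pos hv]
      · rw [if_neg (by push Not; exact ⟨hub, hv⟩), if_neg hv]
    rw [sum_congr rfl fun v _ => h1 v, ← add_sum_erase univ _ (mem_univ b)]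
    rw [if_pos rfl, zero_add]
    have h2 : ∀ v ∈ univ.erase b, (if v = b then 0 else (K u v + K u b * K b v / (1 - K b b))) =
        K u v + K u b / (1 - K b b) * K b v := by
      intro v hv
      rw [if_neg (mem_erase.1 hv).1]
      ring
    rw [sum_congr rfl h2, sum_add_distrib, ← mul_sum, h.row_erase b hb]
    have h3 := h.row u huC
    rw [← add_sum_erase univ (fun v => K u v) (mem_univ b)] at h3
    by_cases h4 : 1 - K b b = 0
    · have h5 : K u b = 0 := by rw [h.symm]; exact h.zero_of_one b hb h4 u hub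
      rw [h4, mul_zero, add_zero, ← h3]
      simp only [h5, zero_add]
    · rw [div_mul_cancel₀ _ h4, ← h3]
      ring

/-- the variance of the neighbours of `b` -/
theorem star (w f : V → ℝ) (s : Finset V) (c : ℝ) (W : ℝ)
    (hW : ∑ v ∈ s, w v = W) (h0 : 0 < W) :
    (∑ u ∈ s, ∑ v ∈ s, w u * w v / W * (f u - f v) ^ 2) ≤ 2 * ∑ u ∈ s, w u * (f u - c) ^ 2 := by
  have e1 : ∀ u v, w u * w v / W * (f u - f v) ^ 2 = W⁻¹ * (w v * (w u * (f u - c) ^ 2)) +
      W⁻¹ * (w u * (w v * (f v - c) ^ 2)) - 2 * W⁻¹ * ((w u * (f u - c)) * (w v * (f v - c))) := by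
    intro u v
    rw [div_eq_mul_inv]
    ring
  simp only [e1, sum_add_distrib, sum_sub_distrib]
  have e2 : ∑ u ∈ s, ∑ v ∈ s, W⁻¹ * (w v * (w u * (f u - c) ^ 2)) =
      ∑ u ∈ s, w u * (f u - c) ^ 2 := by
    refine sum_congr rfl fun u _ => ?_
    rw [← mul_sum, ← sum_mul, hW]
    field_simp
  have e3 : ∑ u ∈ s, ∑ v ∈ s, W⁻¹ * (w u * (w v * (f v - c) ^ 2)) =
      ∑ u ∈ s, w u * (f u - c) ^ 2 := by
    rw [sum_comm]
    exact e2
  have e4 : ∑ u ∈ s, ∑ v ∈ s, 2 * W⁻¹ * ((w u * (f u - c)) * (w v * (f v - c))) =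
      2 * W⁻¹ * (∑ u ∈ s, w u * (f u - c)) ^ 2 := by
    rw [sq, sum_mul_sum, mul_sum]
    exact sum_congr rfl fun u _ => (mul_sum _ _ _).symm
  rw [e2, e3, e4]
  have : 0 ≤ 2 * W⁻¹ * (∑ u ∈ s, w u * (f u - c)) ^ 2 := by positivity
  linarith

theorem en_elim (h : IsK K C) (b : V) (hb : b ∈ C) (f : V → ℝ) : en (elim K b) f ≤ en K f := by
  have h1 : en (elim K b) f = ∑ u ∈ univ.erase b, ∑ v ∈ univ.erase b,
      (K u v + K u b * K b v / (1 - K b b)) * (f u - f v) ^ 2 := by
    unfold en elim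
    rw [← add_sum_erase univ _ (mem_univ b)]
    have e0 : ∑ v, (if b = b ∨ v = b then 0 else K b v + K b b * K b v / (1 - K b b)) *
        (f b - f v) ^ 2 = 0 := sum_eq_zero fun v _ => by rw [if_pos (Or.inl rfl), zero_mul]
    rw [e0, zero_add]
    refine sum_congr rfl fun u hu => ?_
    rw [← add_sum_erase univ _ (mem_univ b), if_pos (Or.inr rfl), zero_mul, zero_add]
    refine sum_congr rfl fun v hv => ?_
    rw [if_neg]
    push Not
    exact ⟨(mem_erase.1 hu).1, (mem_erase.1 hv).1⟩
  have h2 : en K f = (∑ u ∈ univ.erase b, ∑ v ∈ univ.erase b, K u v * (f u - f v) ^ 2) +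
      2 * ∑ u ∈ univ.erase b, K b u * (f u - f b) ^ 2 := by
    unfold en
    rw [← add_sum_erase univ _ (mem_univ b)]
    have e1 : ∑ v, K b v * (f b - f v) ^ 2 = ∑ u ∈ univ.erase b, K b u * (f u - f b) ^ 2 := by
      rw [← add_sum_erase univ _ (mem_univ b)]
      simp only [sub_self, ne_eq, OfNat.ofNat_ne_zero, not_false_eq_true, zero_pow, mul_zero,
        zero_add]
      exact sum_congr rfl fun v _ => by ring
    have e2 : ∀ u ∈ univ.erase b, ∑ v, K u v * (f u - f v) ^ 2 =
        K b u * (f u - f b) ^ 2 + ∑ v ∈ univ.erase b, K u v * (f u - f v) ^ 2 := by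
      intro u _
      rw [← add_sum_erase univ _ (mem_univ b), h.symm u b]
    rw [e1, sum_congr rfl e2, sum_add_distrib]
    ring
  rw [h1, h2]
  by_cases h3 : 1 - K b b = 0
  · rw [h3]
    simp only [div_zero, add_zero]
    have : 0 ≤ ∑ u ∈ univ.erase b, K b u * (f u - f b) ^ 2 :=
      sum_nonneg fun u _ => mul_nonneg (h.nonneg _ _) (sq_nonneg _)
    linarith
  · have h4 : 0 < 1 - K b b := lt_of_le_of_ne (by have := h.le_one b b; linarith) (Ne.symm h3)
    have h5 := star (fun v => K b v) f (univ.erase b) (f b) _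
      (h.row_erase b hb) h4
    have e3 : ∀ u ∈ univ.erase b, ∀ v ∈ univ.erase b,
        (K u v + K u b * K b v / (1 - K b b)) * (f u - f v) ^ 2 = K u v * (f u - f v) ^ 2 +
        K b u * K b v / (1 - K b b) * (f u - f v) ^ 2 := by
      intro u _ v _
      rw [h.symm u b]
      ring
    rw [sum_congr rfl fun u hu => sum_congr rfl (e3 u hu)]
    simp only [sum_add_distrib]
    linarith

theorem bet_elim (h : IsK K C) (b : V) (hb : b ∈ C) (T B : Finset V) (hT : b ∉ T) (hB : b ∉ B)
    (hTB : Disjoint T B) :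
    bet (elim K b) T T + bet (elim K b) T B ≤ bet K T T + bet K T (insert b B) := by
  have h1 : bet (elim K b) T T + bet (elim K b) T B = ∑ u ∈ T, ∑ v ∈ T ∪ B,
      (K u v + K u b * K b v / (1 - K b b)) := by
    unfold bet
    rw [← sum_add_distrib]
    refine sum_congr rfl fun u hu => ?_
    rw [sum_union hTB]
    have hub : u ≠ b := fun e => hT (e ▸ hu)
    congr 1
    · refine sum_congr rfl fun v hv => ?_
      have hvb : v ≠ b := fun e => hT (e ▸ hv)
      unfold elim
      rw [if_neg (by push Not; exact ⟨hub, hvb⟩)]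
    · refine sum_congr rfl fun v hv => ?_
      have hvb : v ≠ b := fun e => hB (e ▸ hv)
      unfold elim
      rw [if_neg (by push Not; exact ⟨hub, hvb⟩)]
  have h2 : bet K T T + bet K T (insert b B) = ∑ u ∈ T, ((∑ v ∈ T ∪ B, K u v) + K u b) := by
    unfold bet
    rw [← sum_add_distrib]
    refine sum_congr rfl fun u hu => ?_
    rw [sum_insert hB, sum_union hTB]
    ring
  rw [h1, h2]
  refine sum_le_sum fun u hu => ?_
  rw [sum_add_distrib]
  have h3 : ∑ v ∈ T ∪ B, K u b * K b v / (1 - K b b) =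
      K u b * (∑ v ∈ T ∪ B, K b v) / (1 - K b b) := by
    rw [mul_sum, sum_div]
  rw [h3]
  have h4 : ∑ v ∈ T ∪ B, K b v ≤ 1 - K b b := by
    rw [← h.row_erase b hb]
    refine sum_le_sum_of_subset_of_nonneg ?_ fun v _ _ => h.nonneg b v
    intro v hv
    refine mem_erase.2 ⟨fun e => ?_, mem_univ v⟩
    rcases mem_union.1 hv with h5 | h5
    · exact hT (e ▸ h5)
    · exact hB (e ▸ h5)
  have h5 : K u b * (∑ v ∈ T ∪ B, K b v) / (1 - K b b) ≤ K u b := by
    have h6 : 0 ≤ 1 - K b b := by have := h.le_one b b; linarith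
    rcases h6.eq_or_lt with h7 | h7
    · rw [← h7, div_zero]; exact h.nonneg u b
    · rw [div_le_iff₀ h7]
      exact mul_le_mul_of_nonneg_left h4 (h.nonneg u b)
  linarith

/-- the induced walk outside of `B` -/
theorem reduce (B : Finset V) : ∀ (K : V → V → ℝ) (C : Finset V), IsK K C → B ⊆ C →
    ∃ K' : V → V → ℝ, IsK K' (C \ B) ∧ (∀ f, en K' f ≤ en K f) ∧
      ∀ T : Finset V, T ⊆ C \ B → bet K' T T ≤ bet K T T + bet K T B := by
  induction B using Finset.induction_on with
  | empty =>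
    intro K C h _
    refine ⟨K, by rwa [sdiff_empty], fun f => le_rfl, fun T _ => ?_⟩
    unfold bet
    simp
  | insert b B hb ih =>
    intro K C h hBC
    have hbC : b ∈ C := hBC (mem_insert_self _ _)
    have hB : B ⊆ C.erase b := fun v hv =>
      mem_erase.2 ⟨fun e => hb (e ▸ hv), hBC (mem_insert_of_mem hv)⟩
    obtain ⟨K', h1, h2, h3⟩ := ih (elim K b) (C.erase b) (h.elim b hbC) hB
    have hC : C.erase b \ B = C \ insert b B := by
      ext v
      simp only [mem_sdiff, mem_erase, mem_insert, not_or]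
      tauto
    rw [hC] at h1 h3
    refine ⟨K', h1, fun f => (h2 f).trans (en_elim h b hbC f), fun T hT => ?_⟩
    refine (h3 T hT).trans (bet_elim h b hbC T B (fun e => ?_) hb ?_)
    · exact (mem_sdiff.1 (hT e)).2 (mem_insert_self _ _)
    · rw [disjoint_left]
      intro v hv hv'
      exact (mem_sdiff.1 (hT hv)).2 (mem_insert_of_mem hv')

/-- choice of the set to eliminate -/
theorem choose_B (K : V → V → ℝ) (hK : ∀ u v, 0 ≤ K u v) (hs : ∀ u v, K u v = K v u) (m : ℕ)
    (hm : m ≤ Fintype.card V) (κ ρ : ℝ)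
    (h : ∀ S : Finset V, S.card = m → bet K S S ≤ κ * m) :
    ∃ B : Finset V, B.card ≤ m ∧ ρ * B.card ≤ κ * m ∧ ∀ T : Finset V, T.Nonempty → Disjoint T B →
      T.card + B.card ≤ m → bet K T T + bet K T B ≤ ρ * T.card := by
  classical
  set F : Finset (Finset V) := univ.filter fun B => B.card ≤ m ∧ ρ * B.card ≤ bet K B B with hF
  have hne : F.Nonempty := ⟨∅, by rw [hF, mem_filter]; simp [bet]⟩
  obtain ⟨B, hBF, hmax⟩ := exists_max_image F (fun B => B.card) hne
  rw [hF, mem_filter] at hBF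
  obtain ⟨_, hB1, hB2⟩ := hBF
  refine ⟨B, hB1, ?_, fun T hT hTB hc => ?_⟩
  · obtain ⟨S, hS1, hS2⟩ := exists_superset_card_eq hB1 hm
    refine hB2.trans (le_trans ?_ (h S hS2))
    unfold bet
    calc ∑ u ∈ B, ∑ v ∈ B, K u v ≤ ∑ u ∈ B, ∑ v ∈ S, K u v :=
          sum_le_sum fun u _ => sum_le_sum_of_subset_of_nonneg hS1 fun v _ _ => hK u v
      _ ≤ _ := sum_le_sum_of_subset_of_nonneg hS1 fun u _ _ => sum_nonneg fun v _ => hK u v
  · have h1 : B ∪ T ∉ F := by
      intro h2
      have h3 := hmax _ h2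
      rw [card_union_of_disjoint hTB.symm] at h3
      have := hT.card_pos
      omega
    rw [hF, mem_filter] at h1
    push Not at h1
    have h4 : (B ∪ T).card = B.card + T.card := card_union_of_disjoint hTB.symm
    have h5 := h1 (mem_univ _) (by rw [h4]; omega)
    rw [h4] at h5
    push_cast at h5
    have h6 : bet K (B ∪ T) (B ∪ T) = bet K B B + bet K T T + 2 * bet K T B := by
      unfold bet
      rw [sum_union hTB.symm]
      have e1 : ∀ u, ∑ v ∈ B ∪ T, K u v = (∑ v ∈ B, K u v) + ∑ v ∈ T, K u v := fun u =>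
        sum_union hTB.symm
      simp only [e1, sum_add_distrib]
      have e2 : ∑ u ∈ B, ∑ v ∈ T, K u v = ∑ u ∈ T, ∑ v ∈ B, K u v := by
        rw [sum_comm]
        exact sum_congr rfl fun u _ => sum_congr rfl fun v _ => hs v u
      rw [e2]
      ring
    rw [h6] at h5
    have h7 : 0 ≤ bet K T B := sum_nonneg fun u _ => sum_nonneg fun v _ => hK u v
    nlinarith

end

end Pool.Agent.TH522.SE
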