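import Pool.Agent.TH700.UG.Form
import Pool.Agent.Results.MP_8d8c46_lc.MixedHierarchy

/-!
Local reductions from 3-SAT to small-set expansion.
-/

set_option linter.unusedSectionVars false

namespace Pool.Agent.TH522.SE

open Finset Pool.Agent.W888.GX Pool.Agent.TH700.UG
open Pool.Agent.Results.MP_8d8c46_lc.MixedHierarchy

/-- The formula `F` is represented in the graph `G` of degree `deg` for sets of size `m`, with
locality `d` and completeness `ε`: every assignment `z` of the variables has an honest set (with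
indicator `enc z`), the membership of every vertex in it depends on at most `d` of the variables,
its boundary is `ε * deg * m - ∑ p, g p z` and its size is `m + ∑ q, h q z`, where each term `g p z`
depends on a set `T p` of at most `d` variables and is nonnegative if `z` satisfies the clauses of
`F` inside of `T p`, and each term `h q z` depends on a set `T' q` of at most `d` variables and is
zero if `z` satisfies the clauses of `F` inside of `T' q`. So if `z` satisfies `F`, then its honest
set has exactly `m` vertices and expansion at most `ε`, and both can be checked locally. -/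
def Represents {n k : ℕ} {I V : Type} [Fintype V] (F : I → Clause k n) (d : ℕ) (ε : ℝ) (m deg : ℕ)
    (G : SimpleGraph V) [DecidableRel G.Adj] : Prop :=
  ∃ (enc : (Fin n → ZMod 2) → V → Bool)
    (P : Type) (_ : Fintype P) (T : P → Finset (Fin n)) (g : P → (Fin n → ZMod 2) → ℝ)
    (Q : Type) (_ : Fintype Q) (T' : Q → Finset (Fin n)) (h : Q → (Fin n → ZMod 2) → ℝ),
    (∀ v, ∃ S : Finset (Fin n), S.card ≤ d ∧ Reads (fun z => enc z v) S) ∧
    (∀ p, (T p).card ≤ d ∧ Reads (g p) (T p) ∧ ∀ z, SatOn F (T p) z → 0 ≤ g p z) ∧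
    (∀ q, (T' q).card ≤ d ∧ Reads (h q) (T' q) ∧ ∀ z, SatOn F (T' q) z → h q z = 0) ∧
    (∀ z, (boundary G (enc z) : ℝ) = ε * (deg * m) - ∑ p, g p z) ∧
    ∀ z, (size (enc z) : ℝ) = m + ∑ q, h q z

section
variable {n D d : ℕ} {L : ((Fin n → ZMod 2) → ℝ) →ₗ[ℝ] ℝ} {V : Type} [Fintype V]

/-- composition of a functional with a local encoding, as a solution of the mixed hierarchy -/
theorem mixed_comp {I : Type} {kk k m : ℕ} (hL : IsPseudoExpectation D L) (F : I → Clause kk n)
    (hF : ∀ i, ∀ u : (Fin n → ZMod 2) → ℝ, (∀ x, (Satisfies x (F i) → u x = 0) ∧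
      (¬ Satisfies x (F i) → u x = 1)) → L u = 0)
    (enc : (Fin n → ZMod 2) → V → Bool)
    (henc : ∀ v, ∃ S : Finset (Fin n), S.card ≤ d ∧ Reads (fun z => enc z v) S)
    (Q : Type) [Fintype Q] (T' : Q → Finset (Fin n)) (h : Q → (Fin n → ZMod 2) → ℝ)
    (hh : ∀ q, (T' q).card ≤ d ∧ Reads (h q) (T' q) ∧ ∀ z, SatOn F (T' q) z → h q z = 0)
    (hsz : ∀ z, (size (enc z) : ℝ) = m + ∑ q, h q z)
    (hD : (k + 2) * d ≤ D) : IsMixed k m (L.comp (LinearMap.funLeft ℝ ℝ enc)) := by
  classical
  choose S hS hR using henc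
  have hreadU : ∀ (W : Finset V) (f : (V → Bool) → ℝ), DependsOn W f →
      Reads (fun z => f (enc z)) (W.biUnion S) := by
    intro W f hf x y hxy
    exact hf _ _ fun v hv => hR v x y fun i hi => hxy i (mem_biUnion.2 ⟨v, hv, hi⟩)
  have hcardU : ∀ W : Finset V, (W.biUnion S).card ≤ W.card * d := by
    intro W
    exact card_biUnion_le.trans ((Finset.sum_le_card_nsmul W _ d fun v _ => hS v).trans
      (by rw [smul_eq_mul]))
  refine ⟨?_, fun W hW f hf hf0 => ?_, fun W hW g hg hg0 c => ?_, fun W hW g hg => ?_⟩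
  · rw [LinearMap.comp_apply]
    exact hL.1
  · have h1 := hL.2 (fun z => Real.sqrt (f (enc z))) (mem_low (S := W.biUnion S)
      ((hcardU W).trans ((Nat.mul_le_mul_right d hW).trans hD))
      (hreadU W (fun x => Real.sqrt (f x)) fun x y hxy => congrArg Real.sqrt (hf x y hxy)))
    have h2 : (fun z => (fun z => Real.sqrt (f (enc z))) z ^ 2) = fun z => f (enc z) := by
      funext z
      exact Real.sq_sqrt (hf0 _)
    rw [h2] at h1
    exact h1
  · have hmem : (fun z => ∑ v, Real.sqrt (g (enc z)) * c v (enc z v)) ∈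
        LowDegree (Fin n) (ZMod 2) D := by
      have h0 : (fun z => ∑ v, Real.sqrt (g (enc z)) * c v (enc z v)) =
          ∑ v, fun z => Real.sqrt (g (enc z)) * c v (enc z v) := by
        funext z
        rw [Finset.sum_apply]
      rw [h0]
      refine Submodule.sum_mem _ fun v _ => ?_
      refine mem_low (S := (insert v W).biUnion S) ?_ ?_
      · refine (hcardU _).trans (le_trans (Nat.mul_le_mul_right d ?_) hD)
        exact (card_insert_le _ _).trans (by omega)
      · refine hreadU (insert v W) (fun x => Real.sqrt (g x) * c v (x v)) ?_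
        intro x y hxy
        show Real.sqrt (g x) * c v (x v) = Real.sqrt (g y) * c v (y v)
        rw [hg x y fun w hw => hxy w (mem_insert_of_mem hw), hxy v (mem_insert_self _ _)]
    have h1 := hL.2 _ hmem
    have h2 : (fun z => (fun z => ∑ v, Real.sqrt (g (enc z)) * c v (enc z v)) z ^ 2) =
        fun z => g (enc z) * (∑ v, c v (enc z v)) ^ 2 := by
      funext z
      simp only []
      rw [← mul_sum, mul_pow, Real.sq_sqrt (hg0 _)]
    rw [h2] at h1
    exact h1
  · show L (fun z => g (enc z) * size (enc z)) = m * L (fun z => g (enc z))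
    have h1 : (fun z => g (enc z) * (size (enc z) : ℝ)) =
        ((m : ℝ) • fun z => g (enc z)) + ∑ q, fun z => g (enc z) * h q z := by
      funext z
      rw [Pi.add_apply, Pi.smul_apply, Finset.sum_apply, hsz, mul_add, mul_sum, smul_eq_mul]
      ring
    rw [h1, map_add, map_smul, smul_eq_mul, map_sum]
    have h2 : ∀ q ∈ univ, L (fun z => g (enc z) * h q z) = 0 := by
      intro q _
      obtain ⟨q1, q2, q3⟩ := hh q
      have hc : (W.biUnion S ∪ T' q).card ≤ D := by
        refine (card_union_le _ _).trans (le_trans (add_le_add (hcardU W) q1) (le_trans ?_ hD))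
        calc W.card * d + d ≤ k * d + d := by
              exact Nat.add_le_add_right (Nat.mul_le_mul_right d hW) d
          _ ≤ (k + 2) * d := by nlinarith
      have hr : ∀ s : ℝ, Reads (fun z => s * (g (enc z) * h q z)) (W.biUnion S ∪ T' q) := by
        intro s x y hxy
        have e1 := hreadU W g hg x y fun i hi => hxy i (mem_union_left _ hi)
        have e2 := q2 x y fun i hi => hxy i (mem_union_right _ hi)
        show s * (g (enc x) * h q x) = s * (g (enc y) * h q y)
        rw [e2]
        have e3 : g (enc x) = g (enc y) := e1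
        rw [e3]
      have hz : ∀ z, SatOn F (W.biUnion S ∪ T' q) z → h q z = 0 := fun z hz =>
        q3 z fun i hi => hz i fun l => mem_union_right _ (hi l)
      have p1 := pe_local hL F hF _ hc _ (hr 1) fun z hs => by rw [hz z hs]; simp
      have p2 := pe_local hL F hF _ hc _ (hr (-1)) fun z hs => by rw [hz z hs]; simp
      have e4 : (fun z => (-1 : ℝ) * (g (enc z) * h q z)) =
          -fun z => g (enc z) * h q z := by
        funext z
        simp
      rw [e4, map_neg] at p2
      simp only [one_mul] at p1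
      linarith
    rw [sum_eq_zero h2, add_zero]

theorem val_comp {I : Type} {kk m deg : ℕ} (hL : IsPseudoExpectation D L) (F : I → Clause kk n)
    (hF : ∀ i, ∀ u : (Fin n → ZMod 2) → ℝ, (∀ x, (Satisfies x (F i) → u x = 0) ∧
      (¬ Satisfies x (F i) → u x = 1)) → L u = 0)
    (G : SimpleGraph V) [DecidableRel G.Adj] (ε : ℝ)
    (enc : (Fin n → ZMod 2) → V → Bool)
    (P : Type) [Fintype P] (T : P → Finset (Fin n)) (g : P → (Fin n → ZMod 2) → ℝ)
    (hg : ∀ p, (T p).card ≤ d ∧ Reads (g p) (T p) ∧ ∀ z, SatOn F (T p) z → 0 ≤ g p z)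
    (hb : ∀ z, (boundary G (enc z) : ℝ) = ε * (deg * m) - ∑ p, g p z) (hd : d ≤ D) :
    (L.comp (LinearMap.funLeft ℝ ℝ enc)) (fun x => boundary G x) ≤ ε * (deg * m) := by
  have h1 : (L.comp (LinearMap.funLeft ℝ ℝ enc)) (fun x => (boundary G x : ℝ)) =
      L (fun z => (boundary G (enc z) : ℝ)) := rfl
  have h2 : (fun z => (boundary G (enc z) : ℝ)) =
      ((ε * (deg * m)) • fun _ => (1 : ℝ)) - ∑ p, g p := by
    funext z
    rw [Pi.sub_apply, Pi.smul_apply, smul_eq_mul, mul_one, Finset.sum_apply, hb]
  rw [h1, h2, map_sub, map_smul, hL.1, smul_eq_mul, mul_one, map_sum]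
  have h3 : 0 ≤ ∑ p, L (g p) := Finset.sum_nonneg fun p _ =>
    pe_local hL F hF (T p) ((hg p).1.trans hd) (g p) (hg p).2.1 (hg p).2.2
  linarith

end

end Pool.Agent.TH522.SE
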