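import Pool.Agent.TH522.SE.Bool

/-!
Small set expansion and the mixed hierarchy: the conditioning argument and the rounding.
-/

set_option linter.unusedSectionVars false

namespace Pool.Agent.TH522.SE

open Finset Pool.Agent.H647R3.UG Pool.Agent.TH522.UG

section
variable {V : Type} [Fintype V] [DecidableEq V] {K : V → V → ℝ} {k m : ℕ}
  {L : ((V → Bool) → ℝ) →ₗ[ℝ] ℝ}

/-- the bound on the number of steps -/
noncomputable def RR (n m : ℕ) (ε l : ℝ) : ℝ := 396 * (n / m * (m : ℝ) ^ (512 * ε / l))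

theorem powers (m : ℕ) (hm : 1 ≤ m) (ε l : ℝ) (hε : 0 < ε) (hε1 : ε ≤ 1 / 512) (hl : 0 < l) :
    ∃ s : ℕ, Real.exp (-l) ^ s ≤ 1 / m ∧
      1 ≤ 3 * (m : ℝ) ^ (512 * ε / l) * (1 - 64 * ε) ^ (4 * s) := by
  have hm0 : (0 : ℝ) < m := by exact_mod_cast hm
  have hm1 : (1 : ℝ) ≤ m := by exact_mod_cast hm
  have hlog : 0 ≤ Real.log m := Real.log_nonneg hm1
  refine ⟨⌈Real.log m / l⌉₊, ?_, ?_⟩
  · rw [← Real.exp_nat_mul, one_div, ← Real.exp_log hm0, ← Real.exp_neg, Real.exp_le_exp,
      Real.exp_log hm0]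
    have h1 : Real.log m / l ≤ (⌈Real.log m / l⌉₊ : ℝ) := Nat.le_ceil _
    rw [div_le_iff₀ hl] at h1
    linarith
  · have h2 : (⌈Real.log m / l⌉₊ : ℝ) < Real.log m / l + 1 := Nat.ceil_lt_add_one (by positivity)
    set s := ⌈Real.log m / l⌉₊
    have a1 : Real.exp (-(128 * ε)) ≤ 1 - 64 * ε := by
      have h := convexOn_exp.2 (Set.mem_univ (0 : ℝ)) (Set.mem_univ (-1 : ℝ))
        (by linarith : (0 : ℝ) ≤ 1 - 128 * ε) (by linarith : (0 : ℝ) ≤ 128 * ε) (by ring)
      simp only [smul_eq_mul, mul_zero, zero_add, Real.exp_zero, mul_one] at h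
      have he : Real.exp (-1) ≤ 1 / 2 := by
        rw [Real.exp_neg, one_div]
        apply inv_anti₀ (by norm_num)
        have := Real.add_one_le_exp (1 : ℝ)
        linarith
      calc Real.exp (-(128 * ε)) = Real.exp (128 * ε * -1) := by ring_nf
        _ ≤ 1 - 128 * ε + 128 * ε * Real.exp (-1) := h
        _ ≤ 1 - 128 * ε + 128 * ε * (1 / 2) := by
            have := mul_le_mul_of_nonneg_left he (by linarith : (0 : ℝ) ≤ 128 * ε)
            linarith
        _ = 1 - 64 * ε := by ring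
    have a2 : Real.exp (-(512 * ε / l * Real.log m + 1)) ≤ (1 - 64 * ε) ^ (4 * s) := by
      calc Real.exp (-(512 * ε / l * Real.log m + 1)) ≤ Real.exp ((4 * s : ℕ) * -(128 * ε)) := by
            apply Real.exp_le_exp.2
            push_cast
            have h3 : 512 * ε * s ≤ 512 * ε * (Real.log m / l + 1) :=
              mul_le_mul_of_nonneg_left h2.le (by positivity)
            have h4 : 512 * ε * (Real.log m / l + 1) = 512 * ε / l * Real.log m + 512 * ε := by
              field_simp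
            linarith
        _ = Real.exp (-(128 * ε)) ^ (4 * s) := by rw [Real.exp_nat_mul]
        _ ≤ (1 - 64 * ε) ^ (4 * s) := pow_le_pow_left₀ (Real.exp_pos _).le a1 _
    have a3 : (m : ℝ) ^ (512 * ε / l) = Real.exp (512 * ε / l * Real.log m) := by
      rw [Real.rpow_def_of_pos hm0, mul_comm]
    have a4 : 1 ≤ 3 * Real.exp (-1) := by
      rw [Real.exp_neg, ← div_eq_mul_inv, le_div_iff₀ (Real.exp_pos _)]
      have := Real.exp_one_lt_d9
      linarith
    calc (1 : ℝ) ≤ 3 * Real.exp (-1) := a4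
      _ = 3 * (m : ℝ) ^ (512 * ε / l) * Real.exp (-(512 * ε / l * Real.log m + 1)) := by
          rw [a3, mul_assoc, ← Real.exp_add]
          congr 2
          ring
      _ ≤ _ := mul_le_mul_of_nonneg_left a2 (by positivity)

/-- global correlation of the functional -/
theorem corr (hK : IsK K univ) (hm : 1 ≤ m) (hmn : m ≤ Fintype.card V) (ε l : ℝ) (hε : 0 < ε)
    (hε1 : ε ≤ 1 / 512) (hl : 0 < l)
    (hS : ∀ S : Finset V, S.card = m → bet K S S ≤ Real.exp (-l) / 128 * m)
    (hL : SM k m L) (hw : (m : ℝ) / 16 ≤ ww L) (he : err K L ≤ 4 * ε * m) :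
    ww L ^ 2 ≤ RR (Fintype.card V) m ε l * ∑ u, ∑ v, G L u v ^ 2 := by
  have hm0 : (0 : ℝ) < m := by exact_mod_cast hm
  set κ : ℝ := Real.exp (-l) / 128 with hκ
  have hκ0 : 0 < κ := by positivity
  obtain ⟨B, hB1, hB2, hB3⟩ := choose_B K hK.nonneg hK.symm m hmn κ (8 * κ) hS
  have hBm : (B.card : ℝ) ≤ m / 8 := by
    have h1 : κ * (8 * B.card) ≤ κ * m := by linarith
    have := le_of_mul_le_mul_left h1 hκ0
    linarith
  obtain ⟨K', hK', hen, hden⟩ := reduce B K univ hK (subset_univ B)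
  obtain ⟨U, hU⟩ := gramG hL.mx
  obtain ⟨s, hs1, hs2⟩ := powers m hm ε l hε hε1 hl
  set C : Finset V := univ \ B with hC
  -- mass outside of `B`
  have hb0 : ∑ j, ∑ v ∈ C, U j v ^ 2 = ∑ v ∈ C, G L v v := by
    rw [sum_comm]
    refine sum_congr rfl fun v _ => ?_
    rw [hU]
    exact sum_congr rfl fun j _ => sq _
  have hb1 : ww L / 2 ≤ ∑ j, ∑ v ∈ C, U j v ^ 2 := by
    rw [hb0]
    have h1 : ∑ v ∈ C, G L v v + ∑ v ∈ B, G L v v = ww L := by
      rw [hC]
      exact sum_sdiff (subset_univ B)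
    have h2 : ∑ v ∈ B, G L v v ≤ B.card * (1 / 4) := by
      rw [← nsmul_eq_mul]
      exact sum_le_card_nsmul _ _ _ fun v _ => G_self_le hL.mx v
    linarith
  have hb2 : 0 < ∑ j, ∑ v ∈ C, U j v ^ 2 := by linarith
  -- energy
  have hE : ∑ j, en K' (U j) ≤ 2 * (64 * ε) * ∑ j, ∑ v ∈ C, U j v ^ 2 := by
    have h1 : ∑ j, en K' (U j) ≤ ∑ j, en K (U j) := sum_le_sum fun j _ => hen (U j)
    have h2 : ∑ j, en K (U j) = ∑ u, ∑ v, K u v * (G L u u + G L v v - 2 * G L u v) := by
      unfold en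
      rw [sum_comm]
      refine sum_congr rfl fun u _ => ?_
      rw [sum_comm]
      refine sum_congr rfl fun v _ => ?_
      have e0 : G L u u + G L v v - 2 * G L u v = ∑ j, (U j u - U j v) ^ 2 := by
        rw [hU, hU, hU, ← sum_add_distrib, mul_sum, ← sum_sub_distrib]
        exact sum_congr rfl fun j _ => by ring
      rw [e0, mul_sum]
    have h3 : ∑ u, ∑ v, K u v * (G L u u + G L v v - 2 * G L u v) ≤ err K L := by
      unfold err
      refine sum_le_sum fun u _ => sum_le_sum fun v _ => mul_le_mul_of_nonneg_left ?_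
        (hK.nonneg u v)
      rw [one_sub_sat hL.mx]
      have := sq_nonneg (pr L u true - pr L v true)
      linarith
    have h4 : 4 * ε * m ≤ 2 * (64 * ε) * ∑ j, ∑ v ∈ C, U j v ^ 2 := by
      have h5 : (m : ℝ) / 32 ≤ ∑ j, ∑ v ∈ C, U j v ^ 2 := by linarith
      have := mul_le_mul_of_nonneg_left h5 (by positivity : (0 : ℝ) ≤ 2 * (64 * ε))
      linarith
    linarith
  have hσ : 2 * Real.sqrt (8 * κ) ≤ Real.exp (-l / 2) / 2 := by
    have h1 : Real.sqrt (8 * κ) = Real.exp (-l / 2) / 4 := by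
      rw [show 8 * κ = (Real.exp (-l / 2) / 4) ^ 2 by
        rw [hκ, div_pow, ← Real.exp_nat_mul]
        push_cast
        rw [show 2 * (-l / 2) = -l by ring]
        ring]
      exact Real.sqrt_sq (by positivity)
    rw [h1]
    linarith
  have hσ1 : Real.exp (-l / 2) / 2 ≤ 1 / 2 := by
    have : Real.exp (-l / 2) ≤ 1 := Real.exp_le_one_iff.2 (by linarith)
    linarith
  have hg := gc hK' (8 * κ) (by positivity) (4 / m) (by positivity) (Real.exp (-l / 2) / 2) hσ hσ1
    (fun T hT hne hTc => by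
      refine (hden T hT).trans (hB3 T hne ?_ ?_)
      · rw [disjoint_left]
        intro v hv hv'
        exact (mem_sdiff.1 (hT hv)).2 hv'
      · have h1 : (2 : ℝ) / (4 / m) = m / 2 := by field_simp; norm_num
        rw [h1] at hTc
        have h2 : (T.card : ℝ) + B.card ≤ m := by linarith
        exact_mod_cast h2) U (64 * ε) (by linarith) hb2 hE s
  have hpw : (Real.exp (-l / 2) / 2) ^ (2 * s) ≤ 1 / m := by
    refine le_trans ?_ hs1
    rw [pow_mul]
    refine pow_le_pow_left₀ (by positivity) ?_ s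
    rw [div_pow, ← Real.exp_nat_mul]
    push_cast
    rw [show 2 * (-l / 2) = -l by ring]
    have := Real.exp_pos (-l)
    linarith
  have hGeq : ∑ u, ∑ v, (∑ j, U j u * U j v) ^ 2 = ∑ u, ∑ v, G L u v ^ 2 :=
    sum_congr rfl fun u _ => sum_congr rfl fun v _ => by rw [hU]
  rw [hGeq] at hg
  set Q := ∑ u, ∑ v, G L u v ^ 2 with hQ
  have hQ0 : 0 ≤ Q := sum_nonneg fun u _ => sum_nonneg fun v _ => sq_nonneg _
  set b := ∑ j, ∑ v ∈ C, U j v ^ 2 with hb
  set n : ℝ := (Fintype.card V : ℝ) with hn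
  have hn0 : 0 ≤ n := Nat.cast_nonneg _
  set A := (m : ℝ) ^ (512 * ε / l) with hA
  have hA0 : 0 < A := Real.rpow_pos_of_pos hm0 _
  set z := (1 - 64 * ε) ^ (4 * s) with hz
  have hz0 : 0 ≤ z := pow_nonneg (by linarith) _
  have h5 : z * b ^ 2 ≤ n * (33 / m) * Q := by
    have e1 : ((1 - 64 * ε) ^ (2 * s) * b) ^ 2 = z * b ^ 2 := by
      rw [hz, mul_pow, ← pow_mul]
      congr 2
      ring
    rw [e1] at hg
    refine hg.trans (mul_le_mul_of_nonneg_right (mul_le_mul_of_nonneg_left ?_ hn0) hQ0)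
    have : (33 : ℝ) / m = 1 / m + 8 * (4 / m) := by ring
    linarith
  have h6 : ww L ^ 2 ≤ 4 * b ^ 2 := by
    have h7 : 0 ≤ ww L := by linarith [div_nonneg hm0.le (by norm_num : (0 : ℝ) ≤ 16)]
    nlinarith
  unfold RR
  calc ww L ^ 2 ≤ 4 * b ^ 2 := h6
    _ = 1 * (4 * b ^ 2) := (one_mul _).symm
    _ ≤ 3 * A * z * (4 * b ^ 2) := mul_le_mul_of_nonneg_right hs2 (by positivity)
    _ = 12 * A * (z * b ^ 2) := by ring
    _ ≤ 12 * A * (n * (33 / m) * Q) := mul_le_mul_of_nonneg_left h5 (by positivity)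
    _ = 396 * (n / m * A) * Q := by ring

/-- the potential -/
noncomputable def pot (K : V → V → ℝ) (ε : ℝ) (L : ((V → Bool) → ℝ) →ₗ[ℝ] ℝ) : ℝ :=
  ww L + err K L / (2 * ε)

theorem ww_nonneg (hL : Mixed k L) : 0 ≤ ww L := sum_nonneg fun v _ => G_self_nonneg hL v

theorem err_nonneg (hK : IsK K univ) (hL : Mixed k L) : 0 ≤ err K L :=
  sum_nonneg fun u _ => sum_nonneg fun v _ => mul_nonneg (hK.nonneg u v) (sat_nn hL u v)

/-- one step of conditioning -/
theorem onestep (hL : SM (k + 1) m L) (ε R : ℝ) (hR : 0 < R)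
    (hw : 0 < ww L) (hc : ww L ^ 2 ≤ R * ∑ u, ∑ v, G L u v ^ 2) :
    ∃ u a, 0 < pr L u a ∧ pot K ε (cnd L u a) ≤ pot K ε L - ww L / R := by
  obtain ⟨U, hU⟩ := gramG hL.mx
  -- a vertex of large decrease
  obtain ⟨u, hu0, hu⟩ : ∃ u, 0 < G L u u ∧ ww L / R * G L u u ≤ ∑ v, G L u v ^ 2 := by
    by_contra hcon
    push Not at hcon
    have h1 : ∀ u, ∑ v, G L u v ^ 2 ≤ ww L / R * G L u u := by
      intro u
      rcases (G_self_nonneg hL.mx u).eq_or_lt with h2 | h2
      · rw [← h2, mul_zero]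
        refine le_of_eq (sum_eq_zero fun v _ => ?_)
        have h3 : (∑ j, U j u * U j v) ^ 2 ≤ (∑ j, U j u ^ 2) * ∑ j, U j v ^ 2 :=
          sum_mul_sq_le_sq_mul_sq _ _ _
        have h4 : ∑ j, U j u ^ 2 = 0 := by
          have h5 := hU u u
          rw [← h2] at h5
          rw [h5]
          exact sum_congr rfl fun j _ => sq _
        rw [h4, zero_mul, ← hU] at h3
        exact le_antisymm h3 (sq_nonneg _)
      · exact (hcon u h2).le
    obtain ⟨u0, hu0⟩ : ∃ u, 0 < G L u u := by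
      by_contra hc2
      push Not at hc2
      have : ww L ≤ 0 := sum_nonpos fun v _ => hc2 v
      linarith
    have h2 : ∑ u, ∑ v, G L u v ^ 2 < ∑ u, ww L / R * G L u u :=
      sum_lt_sum (fun u _ => h1 u) ⟨u0, mem_univ _, hcon u0 hu0⟩
    rw [← mul_sum] at h2
    change _ < ww L / R * ww L at h2
    have h3 : R * ∑ u, ∑ v, G L u v ^ 2 < R * (ww L / R * ww L) := mul_lt_mul_of_pos_left h2 hR
    have h4 : R * (ww L / R * ww L) = ww L ^ 2 := by field_simp
    linarith
  have hdrop := ww_drop hL.mx u hu0 fun a ha => by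
    rw [Nat.add_sub_cancel]
    exact Mx.step hL.mx u a ha
  have havg := err_avg K hL.mx u
  have hone : ∑ a, pr L u a = 1 := (Mx.law hL.mx u u).one
  have h1 : ∑ a, pr L u a * pot K ε (cnd L u a) ≤ pot K ε L - ww L / R := by
    have e1 : ∑ a, pr L u a * pot K ε (cnd L u a) =
        (∑ a, pr L u a * ww (cnd L u a)) + (∑ a, pr L u a * err K (cnd L u a)) / (2 * ε) := by
      rw [sum_div, ← sum_add_distrib]
      refine sum_congr rfl fun a _ => ?_
      unfold pot
      ring
    rw [e1, hdrop, havg]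
    have h2 : ww L / R ≤ ∑ v, G L u v ^ 2 / G L u u := by
      rw [← sum_div, le_div_iff₀ hu0]
      exact hu
    unfold pot
    linarith
  by_contra hcon
  push Not at hcon
  have h2 : ∀ a, pr L u a * (pot K ε L - ww L / R) ≤ pr L u a * pot K ε (cnd L u a) := by
    intro a
    rcases (Mx.pr_nonneg hL.mx u a).eq_or_lt with h3 | h3
    · rw [← h3, zero_mul, zero_mul]
    · exact mul_le_mul_of_nonneg_left (hcon u a h3).le h3.le
  obtain ⟨a0, ha0⟩ : ∃ a, 0 < pr L u a := by
    by_contra hc2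
    push Not at hc2
    have : ∑ a, pr L u a ≤ 0 := sum_nonpos fun a _ => hc2 a
    linarith
  have h4 : ∑ a, pr L u a * (pot K ε L - ww L / R) < ∑ a, pr L u a * pot K ε (cnd L u a) :=
    sum_lt_sum (fun a _ => h2 a) ⟨a0, mem_univ _, mul_lt_mul_of_pos_left (hcon u a0 ha0) ha0⟩
  rw [← sum_mul, hone, one_mul] at h4
  linarith

theorem loop (hK : IsK K univ) (hm : 1 ≤ m) (hmn : m ≤ Fintype.card V) (ε l : ℝ) (hε : 0 < ε)
    (hε1 : ε ≤ 1 / 512) (hl : 0 < l)
    (hS : ∀ S : Finset V, S.card = m → bet K S S ≤ Real.exp (-l) / 128 * m) (k : ℕ) :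
    ∀ L : ((V → Bool) → ℝ) →ₗ[ℝ] ℝ, SM k m L → pot K ε L ≤ 2 * m →
      pot K ε L < k * (m / 16 / RR (Fintype.card V) m ε l) →
      ∃ L' : ((V → Bool) → ℝ) →ₗ[ℝ] ℝ, SM 0 m L' ∧ ww L' < m / 16 ∧ err K L' ≤ 4 * ε * m := by
  have hm0 : (0 : ℝ) < m := by exact_mod_cast hm
  have hn0 : (0 : ℝ) < (Fintype.card V : ℝ) := by
    have : (m : ℝ) ≤ Fintype.card V := by exact_mod_cast hmn
    linarith
  have hR : 0 < RR (Fintype.card V) m ε l := by
    unfold RR
    have := Real.rpow_pos_of_pos hm0 (512 * ε / l)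
    positivity
  induction k with
  | zero =>
    intro L hL _ h2
    have h3 := ww_nonneg hL.mx
    have h4 := err_nonneg hK hL.mx
    have h5 : 0 ≤ err K L / (2 * ε) := by positivity
    unfold pot at h2
    push_cast at h2
    linarith
  | succ k ih =>
    intro L hL h1 h2
    have h4 : err K L ≤ 4 * ε * m := by
      have h5 := ww_nonneg hL.mx
      unfold pot at h1
      have h6 : err K L / (2 * ε) ≤ 2 * m := by linarith
      rw [div_le_iff₀ (by positivity)] at h6
      linarith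
    by_cases h3 : ww L < m / 16
    · have hz : ∀ j, ∀ L : ((V → Bool) → ℝ) →ₗ[ℝ] ℝ, SM j m L → SM 0 m L := by
        intro j
        induction j with
        | zero => exact fun L h => h
        | succ j ihj => exact fun L h => ihj L h.mono
      exact ⟨L, hz _ L hL, h3, h4⟩
    · push Not at h3
      have hw : 0 < ww L := lt_of_lt_of_le (by positivity) h3
      have hc := corr hK hm hmn ε l hε hε1 hl hS hL h3 h4
      obtain ⟨u, a, ha, hd⟩ := onestep (K := K) hL ε _ hR hw hc
      have h5 : (m : ℝ) / 16 / RR (Fintype.card V) m ε l ≤ ww L / RR (Fintype.card V) m ε l :=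
        div_le_div_of_nonneg_right h3 hR.le
      have h6 : 0 < (m : ℝ) / 16 / RR (Fintype.card V) m ε l := by positivity
      refine ih (cnd L u a) (hL.step u a ha) (by linarith) ?_
      push_cast at h2
      linarith

/-- a set at least as good as a fractional one -/
theorem top (p : V → ℝ) (hp0 : ∀ v, 0 ≤ p v) (hp1 : ∀ v, p v ≤ 1) (m : ℕ)
    (hp : ∑ v, p v = m) (hmn : m ≤ Fintype.card V) :
    ∃ S : Finset V, S.card = m ∧ ∑ v, p v ^ 2 ≤ ∑ v ∈ S, p v := by
  classical
  obtain ⟨S0, hS0⟩ : ∃ S : Finset V, S.card = m := by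
    obtain ⟨S, _, hS⟩ := exists_subset_card_eq (s := (univ : Finset V)) (n := m)
      (by rwa [card_univ])
    exact ⟨S, hS⟩
  obtain ⟨S, hSm, hmax⟩ := exists_max_image (univ.filter fun S : Finset V => S.card = m)
    (fun S => ∑ v ∈ S, p v) ⟨S0, mem_filter.2 ⟨mem_univ _, hS0⟩⟩
  rw [mem_filter] at hSm
  refine ⟨S, hSm.2, ?_⟩
  have hex : ∀ u ∈ S, ∀ v, v ∉ S → p v ≤ p u := by
    intro u hu v hv
    have h1 : insert v (S.erase u) ∈ univ.filter fun S : Finset V => S.card = m := by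
      refine mem_filter.2 ⟨mem_univ _, ?_⟩
      rw [card_insert_of_notMem fun h => hv (mem_of_mem_erase h), card_erase_add_one hu]
      exact hSm.2
    have h2 := hmax _ h1
    rw [sum_insert fun h => hv (mem_of_mem_erase h)] at h2
    have h3 := add_sum_erase S p hu
    linarith
  have hsplit : ∀ f : V → ℝ, ∑ v, f v = ∑ v ∈ S, f v + ∑ v ∈ Sᶜ, f v := fun f =>
    (sum_add_sum_compl S f).symm
  rcases S.eq_empty_or_nonempty with h0 | h0
  · have h1 : (m : ℝ) = 0 := by rw [← hSm.2, h0]; simp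
    rw [h1] at hp
    have h2 : ∀ v ∈ univ, p v = 0 := (sum_eq_zero_iff_of_nonneg fun v _ => hp0 v).1 hp
    rw [h0, sum_empty]
    exact le_of_eq (sum_eq_zero fun v hv => by rw [h2 v hv]; norm_num)
  · obtain ⟨u0, hu0, hmin⟩ := exists_min_image S p h0
    have h1 : ∀ v ∈ Sᶜ, p v ^ 2 ≤ p u0 * p v := by
      intro v hv
      have := mul_le_mul_of_nonneg_right (hex u0 hu0 v (mem_compl.1 hv)) (hp0 v)
      rwa [← sq] at this
    have h2 : ∀ v ∈ S, p v ^ 2 ≤ p v - p u0 * (1 - p v) := by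
      intro v hv
      have := mul_le_mul_of_nonneg_right (hmin v hv) (by linarith [hp1 v] : 0 ≤ 1 - p v)
      nlinarith
    have h3 : ∑ v ∈ S, (1 - p v) = ∑ v ∈ Sᶜ, p v := by
      rw [sum_sub_distrib, sum_const, nsmul_eq_mul, mul_one, hSm.2]
      have := hsplit p
      linarith
    rw [hsplit]
    calc ∑ v ∈ S, p v ^ 2 + ∑ v ∈ Sᶜ, p v ^ 2
        ≤ ∑ v ∈ S, (p v - p u0 * (1 - p v)) + ∑ v ∈ Sᶜ, p u0 * p v :=
          add_le_add (sum_le_sum h2) (sum_le_sum h1)
      _ = ∑ v ∈ S, p v := by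
          rw [sum_sub_distrib, ← mul_sum, ← mul_sum, h3]
          ring

/-- rounding of a functional of small variance -/
theorem round (hK : IsK K univ) (hmn : m ≤ Fintype.card V) (ε : ℝ) (hε1 : ε ≤ 1 / 512)
    (hL : SM k m L) (hw : ww L < m / 16) (he : err K L ≤ 4 * ε * m) :
    ∃ S : Finset V, S.card = m ∧ (m : ℝ) / 2 ≤ bet K S S := by
  have hp0 : ∀ v, 0 ≤ pr L v true := fun v => Mx.pr_nonneg hL.mx v true
  have hp1 : ∀ v, pr L v true ≤ 1 := pr_le hL.mx
  obtain ⟨S, hS, hS2⟩ := top (fun v => pr L v true) hp0 hp1 m hL.size hmn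
  refine ⟨S, hS, ?_⟩
  set p : V → ℝ := fun v => pr L v true with hp
  set i : V → ℝ := fun v => if v ∈ S then 1 else 0 with hi
  have hsplit : ∀ f : V → ℝ, ∑ v, f v = ∑ v ∈ S, f v + ∑ v ∈ Sᶜ, f v := fun f =>
    (sum_add_sum_compl S f).symm
  have hsum : ∑ v, p v = m := hL.size
  have hww : ww L = m - ∑ v, p v ^ 2 := by
    unfold ww
    rw [sum_congr rfl fun v _ => G_self hL.mx v, sum_sub_distrib, hsum]
  have h1 : ∑ v, |i v - p v| ≤ m / 8 := by
    rw [hsplit]
    have e1 : ∑ v ∈ S, |i v - p v| = m - ∑ v ∈ S, p v := by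
      have : ∀ v ∈ S, |i v - p v| = 1 - p v := by
        intro v hv
        simp only [hi]
        rw [if_pos hv, abs_of_nonneg]
        linarith [hp1 v]
      rw [sum_congr rfl this, sum_sub_distrib, sum_const, nsmul_eq_mul, mul_one, hS]
    have e2 : ∑ v ∈ Sᶜ, |i v - p v| = m - ∑ v ∈ S, p v := by
      have : ∀ v ∈ Sᶜ, |i v - p v| = p v := by
        intro v hv
        simp only [hi]
        rw [if_neg (mem_compl.1 hv), zero_sub, abs_neg, abs_of_nonneg (hp0 v)]
      rw [sum_congr rfl this]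
      have := hsplit p
      linarith
    rw [e1, e2]
    linarith
  have h2 : ∑ u, ∑ v, K u v * |i u - i v| ≤ m / 4 + err K L := by
    have h3 : ∀ u v, K u v * |i u - i v| ≤ K u v * |i u - p u| + K u v * |i v - p v| +
        K u v * (1 - L (sat u v 1)) := by
      intro u v
      rw [← mul_add, ← mul_add]
      refine mul_le_mul_of_nonneg_left ?_ (hK.nonneg u v)
      have h4 := abs_le_sat hL.mx u v
      have h5 : |i u - i v| ≤ |i u - p u| + |p u - p v| + |p v - i v| := by
        have e : i u - i v = (i u - p u) + (p u - p v) + (p v - i v) := by ring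
        rw [e]
        exact (abs_add_le _ _).trans (add_le_add (abs_add_le _ _) le_rfl)
      rw [abs_sub_comm (p v)] at h5
      linarith
    refine (sum_le_sum fun u _ => sum_le_sum fun v _ => h3 u v).trans ?_
    simp only [sum_add_distrib]
    have e1 : ∑ u, ∑ v, K u v * |i u - p u| = ∑ u, |i u - p u| := by
      refine sum_congr rfl fun u _ => ?_
      rw [← sum_mul, hK.row u (mem_univ u), one_mul]
    have e2 : ∑ u, ∑ v, K u v * |i v - p v| = ∑ u, |i u - p u| := by
      rw [sum_comm, ← e1]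
      refine sum_congr rfl fun u _ => sum_congr rfl fun v _ => by rw [hK.symm]
    rw [e1, e2]
    change _ + _ + err K L ≤ _
    linarith
  have h6 : ∑ u, ∑ v, K u v * |i u - i v| = 2 * (m - bet K S S) := by
    have e3 : ∀ u v, |i u - i v| = i u + i v - 2 * (i u * i v) := by
      intro u v
      simp only [hi]
      split_ifs <;> norm_num
    have e4 : ∑ u, ∑ v, K u v * |i u - i v| = (∑ u, ∑ v, K u v * i u) + (∑ u, ∑ v, K u v * i v) -
        2 * ∑ u, ∑ v, K u v * (i u * i v) := by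
      rw [← sum_add_distrib, mul_sum, ← sum_sub_distrib]
      refine sum_congr rfl fun u _ => ?_
      rw [← sum_add_distrib, mul_sum, ← sum_sub_distrib]
      refine sum_congr rfl fun v _ => ?_
      rw [e3]
      ring
    have e5 : ∑ u, ∑ v, K u v * i u = m := by
      have : ∀ u, ∑ v, K u v * i u = i u := by
        intro u
        rw [← sum_mul, hK.row u (mem_univ u), one_mul]
      rw [sum_congr rfl fun u _ => this u]
      simp only [hi]
      rw [sum_ite_mem, univ_inter, sum_const, nsmul_eq_mul, mul_one, hS]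
    have e6 : ∑ u, ∑ v, K u v * i v = m := by
      rw [sum_comm, ← e5]
      refine sum_congr rfl fun u _ => sum_congr rfl fun v _ => by rw [hK.symm]
    have e7 : ∑ u, ∑ v, K u v * (i u * i v) = bet K S S := by
      unfold bet
      rw [hsplit]
      have : ∑ u ∈ Sᶜ, ∑ v, K u v * (i u * i v) = 0 := by
        refine sum_eq_zero fun u hu => sum_eq_zero fun v _ => ?_
        simp only [hi]
        rw [if_neg (mem_compl.1 hu)]
        ring
      rw [this, add_zero]
      refine sum_congr rfl fun u hu => ?_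
      rw [hsplit]
      have : ∑ v ∈ Sᶜ, K u v * (i u * i v) = 0 := by
        refine sum_eq_zero fun v hv => ?_
        simp only [hi]
        rw [if_neg (mem_compl.1 hv)]
        ring
      rw [this, add_zero]
      refine sum_congr rfl fun v hv => ?_
      simp only [hi]
      rw [if_pos hu, if_pos hv]
      ring
    rw [e4, e5, e6, e7]
    ring
  have h7 : 4 * ε * m ≤ m / 128 := by
    have : (0 : ℝ) ≤ m := Nat.cast_nonneg _
    nlinarith
  linarith

/-- Small set expansion: the mixed hierarchy for kernels. -/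
theorem core (hK : IsK K univ) (hm : 1 ≤ m) (hmn : m ≤ Fintype.card V) (ε l : ℝ) (hε : 0 < ε)
    (hε1 : ε ≤ 1 / 512) (hl : 0 < l) (hL : SM k m L)
    (hk : 2 ^ 14 * (Fintype.card V / m * (m : ℝ) ^ (512 * ε / l)) ≤ k)
    (hval : err K L ≤ 2 * ε * m) :
    ∃ S : Finset V, S.card = m ∧ Real.exp (-l) / 128 * m ≤ bet K S S := by
  by_contra hcon
  push Not at hcon
  have hm0 : (0 : ℝ) < m := by exact_mod_cast hm
  have hn0 : (0 : ℝ) < (Fintype.card V : ℝ) := by
    have : (m : ℝ) ≤ Fintype.card V := by exact_mod_cast hmn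
    linarith
  have hA := Real.rpow_pos_of_pos hm0 (512 * ε / l)
  have hR : 0 < RR (Fintype.card V) m ε l := by
    unfold RR
    positivity
  have hpot : pot K ε L ≤ 2 * m := by
    have h1 : ww L ≤ m := by
      rw [← hL.size]
      refine sum_le_sum fun v _ => ?_
      rw [G_self hL.mx]
      have := sq_nonneg (pr L v true)
      linarith
    have h2 : err K L / (2 * ε) ≤ m := by
      rw [div_le_iff₀ (by positivity)]
      linarith
    unfold pot
    linarith
  obtain ⟨L', h1, h2, h3⟩ := loop hK hm hmn ε l hε hε1 hl (fun S hS => (hcon S hS).le) k L hL hpot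
    (by
      refine lt_of_le_of_lt hpot ?_
      rw [div_div, mul_div_assoc', lt_div_iff₀ (by positivity)]
      have h4 : 32 * RR (Fintype.card V) m ε l < k := by
        refine lt_of_lt_of_le ?_ hk
        unfold RR
        have : 0 < (Fintype.card V : ℝ) / m * (m : ℝ) ^ (512 * ε / l) := by positivity
        norm_num
        linarith
      nlinarith)
  obtain ⟨S, hS1, hS2⟩ := round hK hmn ε hε1 h1 h2 h3
  have h5 := hcon S hS1
  have h6 : Real.exp (-l) ≤ 1 := Real.exp_le_one_iff.2 (by linarith)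
  nlinarith

end

end Pool.Agent.TH522.SE
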